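import Pool.Agent.W5h9.LF.Lift2
import Pool.Agent.W5h9.LF.Q.All

set_option autoImplicit false
set_option linter.unusedVariables false

/-!
# Graphs without Petersen minor and without an induced path with eleven vertices and a further
# isolated vertex
-/

namespace Pool.Agent.W5h9.LF

open Finset Relation Pool.Agent.TH362 Pool.Agent.TH362.TF Pool.Agent.TH362.TF.Four Pool.Agent.R890.FF
open Pool.Agent.R140.PK (Mc St ConnS FC exists_Mc)

theorem qL_get : ∀ i : Fin 12, (qL[i.val]? = some true) ↔ i.val < 10 := by decide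

theorem minor_of_contracts {V E : Type} {s t : E → V} (h : Multi.ContractsToPetersen s t) :
    HasPetersenMinor s t := by
  obtain ⟨B, h1, h2, h3, _⟩ := h
  exact ⟨B, h1, h2, fun i j hij => (h3 i j hij).exists⟩

theorem flow11 {V E : Type} [Fintype V] [DecidableEq V] [Fintype E] [DecidableEq E] (s t : E → V)
    (hn : N1 s t univ) (hp : ¬ HasPetersenMinor s t)
    (hJ : ¬ ∃ p : Fin 12 → V, Function.Injective p ∧ ∀ i j : Fin 12, i < j →
      ((∃ e, (s e = p i ∧ t e = p j) ∨ (s e = p j ∧ t e = p i)) ↔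
        (i.val + 1 = j.val ∧ j.val < 11))) :
    NZ s t univ := by
  classical
  by_contra h1
  have h2 : ¬ PQ s t univ := fun h => hp (minor_of_contracts (contracts s t hn h))
  obtain ⟨π, hπ, hM⟩ := exists_Mc s t univ hn h1 h2
  have hR := Mc.hyp hM qL (by
    intro q hq hnb hq'
    obtain ⟨p, hp1, hp2⟩ := lift_forest (K := 11) hπ (by omega) q hq hnb (by
      intro i j hij
      have h3 := hq' i j hij
      refine h3.trans ?_
      have h4 := qL_get i
      constructor
      · rintro ⟨h5, h6⟩
        exact ⟨h5, by have := h4.1 h6; omega⟩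
      · rintro ⟨h5, h6⟩
        exact ⟨h5, h4.2 (by omega)⟩)
    refine hJ ⟨p, hp1, fun i j hij => ?_⟩
    rw [← hp2 i j hij]
    constructor
    · rintro ⟨e, he⟩
      exact ⟨fun h => absurd (hp1 h) (ne_of_gt hij), e, Finset.mem_univ e, he⟩
    · rintro ⟨_, e, _, he⟩
      exact ⟨e, he⟩) (by
    intro B hd hnb hc hPE
    exact hp (lift_minor hπ B hd hnb hc hPE))
  have h18 := hM.odd18
  obtain ⟨v, hv⟩ : (odd (fun e => π (s e)) (fun e => π (t e)) univ).Nonempty :=
    card_pos.1 (by omega)
  rw [hM.odd_nb v] at hv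
  have h3 : 0 < (univ.filter (Nb (fun e => π (s e)) (fun e => π (t e)) univ v)).card := by omega
  obtain ⟨b, hb⟩ := card_pos.1 h3
  exact main hR qX qall _ _ qtop v b (mem_filter.1 hb).2

end Pool.Agent.W5h9.LF
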