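import Mathlib.Data.Nat.Bitwise
import Mathlib.Data.Finset.Card
import Mathlib.Data.Fintype.Card
import Mathlib.Tactic.Tauto
import Mathlib.Tactic.Push
import Mathlib.Tactic.ByContra

set_option autoImplicit false
set_option linter.unusedVariables false

/-!
# A search for graphs without circuits of length at most four and without an induced linear forest

A state is a graph on `0, ..., m - 1`, given by its adjacency matrix: bit `32 * i + j` of a number.
It is shown to be bad: it is not an induced subgraph of a graph of the class.  A state is bad if for
some vertex with at most two neighbours all possible extensions by a new neighbour contain the linear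
forest or a graph which is known to be bad.  The possible neighbourhoods of the new vertex are
enumerated by a decision tree.  All functions are given by recursors, for the kernel.
-/

namespace Pool.Agent.W5h9.LF

/-- the digits of `p` are an induced linear forest, all vertices of which are in `M`; the list `L`
tells whether a vertex and the next one are adjacent -/
noncomputable def isJ (A M : Nat) (L : List Bool) : Nat → Nat → Nat → Bool :=
  @List.rec Bool (fun _ => Nat → Nat → Nat → Bool)
    (fun _ seen _ => Nat.beq (Nat.land seen M) seen)
    (fun b _ ih p seen prev =>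
      @Bool.rec (fun _ => Bool) false
        (@Bool.rec (fun _ => Bool)
          (ih (Nat.div p (nat_lit 32))
            (Nat.lor seen (Nat.shiftLeft (nat_lit 1) (Nat.mod p (nat_lit 32))))
            (@Bool.rec (fun _ => Nat) (nat_lit 0)
              (Nat.shiftLeft (nat_lit 1) (Nat.mod p (nat_lit 32))) b))
          false
          (Nat.beq (Nat.lor seen (Nat.shiftLeft (nat_lit 1) (Nat.mod p (nat_lit 32)))) seen))
        (Nat.beq (Nat.land (Nat.shiftRight A (Nat.mul (nat_lit 32) (Nat.mod p (nat_lit 32)))) seen)
          prev)) L

/-- an embedding of the graph `X` with `k` vertices: `σ` has its digits, `r` has the lists of the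
neighbours of vertex `i` among the previous ones, which end with `31`; it returns the rest of `r` -/
noncomputable def pat (A M X k σ : Nat) : Nat → Nat → Nat → Nat → Nat → Nat → Nat → Option Nat :=
  @Nat.rec (fun _ => Nat → Nat → Nat → Nat → Nat → Nat → Option Nat)
    (fun _ _ _ _ _ _ => none)
    (fun _ ih i r sg a b seen =>
      @Bool.rec (fun _ => Option Nat)
        -- a neighbour
        (ih i (Nat.div r (nat_lit 32)) sg
          (Nat.lor a (Nat.shiftLeft (nat_lit 1) (Nat.mod r (nat_lit 32))))
          (Nat.lor b (Nat.shiftLeft (nat_lit 1)
            (Nat.mod (Nat.shiftRight σ (Nat.mul (nat_lit 5) (Nat.mod r (nat_lit 32)))) (nat_lit 32))))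
          seen)
        -- the end of the list
        (@Bool.rec (fun _ => Option Nat) none
          (@Bool.rec (fun _ => Option Nat) none
            (@Bool.rec (fun _ => Option Nat)
              (@Bool.rec (fun _ => Option Nat)
                (ih (Nat.succ i) (Nat.div r (nat_lit 32)) (Nat.div sg (nat_lit 32)) (nat_lit 0)
                  (nat_lit 0) (Nat.lor seen (Nat.shiftLeft (nat_lit 1) (Nat.mod sg (nat_lit 32)))))
                (@Bool.rec (fun _ => Option Nat) none (some (Nat.div r (nat_lit 32)))
                  (Nat.beq (Nat.land
                    (Nat.lor seen (Nat.shiftLeft (nat_lit 1) (Nat.mod sg (nat_lit 32)))) M)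
                    (Nat.lor seen (Nat.shiftLeft (nat_lit 1) (Nat.mod sg (nat_lit 32))))))
                (Nat.beq (Nat.succ i) k))
              none
              (Nat.beq (Nat.lor seen (Nat.shiftLeft (nat_lit 1) (Nat.mod sg (nat_lit 32)))) seen))
            (Nat.beq (Nat.mod (Nat.shiftRight X (Nat.mul (nat_lit 32) i))
              (Nat.shiftLeft (nat_lit 1) i)) a))
          (Nat.beq (Nat.land
            (Nat.shiftRight A (Nat.mul (nat_lit 32) (Nat.mod sg (nat_lit 32)))) seen) b))
        (Nat.beq (Nat.mod r (nat_lit 32)) (nat_lit 31)))

/-- entry `i` of the context -/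
noncomputable def getk (Γ : List (Nat × Nat)) : Nat → (Nat → Nat → Option Nat) → Option Nat :=
  @List.rec (Nat × Nat) (fun _ => Nat → (Nat → Nat → Option Nat) → Option Nat)
    (fun _ _ => none)
    (fun h _ ih i K =>
      @Bool.rec (fun _ => Option Nat) (ih (Nat.pred i) K) (K h.1 h.2) (Nat.beq i (nat_lit 0))) Γ

/-- the multiples of `32` -/
noncomputable def COL : Nat := nat_lit 41855804977958881238216860293671333616475814839523861211015363775367857790754367812411590743534994955327154331653972084008334635948471552329445020986934924815945052132199177846429263578652254701150892687317891618273230805205109921907778604060552511649183701335864607145965996450848344889395800702977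

/-- the extended matrix -/
noncomputable def ext (A m N S : Nat) : Nat :=
  Nat.lor (Nat.lor A (Nat.shiftLeft N (Nat.mul (nat_lit 32) m))) (Nat.shiftLeft S m)

/-- the extended matrix of the relation: at distance at most two -/
noncomputable def extB (B m N S R W : Nat) : Nat :=
  Nat.lor (Nat.lor (Nat.lor B (Nat.shiftLeft R (Nat.mul (nat_lit 32) m))) (Nat.shiftLeft W m))
    (Nat.mul N S)

/-- the edges of the Petersen graph -/
def PE : List (Nat × Nat) := [(0, 1), (1, 2), (2, 3), (3, 4), (4, 0), (0, 5), (1, 6), (2, 7), (3, 8),
  (4, 9), (5, 7), (6, 8), (7, 9), (8, 5), (9, 6)]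

/-- the classes are joined as in the Petersen graph -/
noncomputable def pmc (C Nb : Nat) (P : List (Nat × Nat)) : Bool :=
  @List.rec (Nat × Nat) (fun _ => Bool) true
    (fun h _ ih =>
      @Bool.rec (fun _ => Bool) ih false
        (Nat.beq
          (Nat.mod (Nat.land (Nat.shiftRight Nb (Nat.mul (nat_lit 32) h.1))
            (Nat.shiftRight C (Nat.mul (nat_lit 32) h.2))) (nat_lit 4294967296)) (nat_lit 0))) P

/-- a Petersen minor: pairs of a vertex and its class, which end with `31`; a vertex is adjacent to a
vertex of its class which occurs before it, except for the first one -/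
noncomputable def pm (A m : Nat) : Nat → Nat → Nat → Nat → Nat → Option Nat :=
  @Nat.rec (fun _ => Nat → Nat → Nat → Nat → Option Nat)
    (fun _ _ _ _ => none)
    (fun _ ih s C Nb seen =>
      @Bool.rec (fun _ => Option Nat)
        (@Bool.rec (fun _ => Option Nat) none
          (@Bool.rec (fun _ => Option Nat)
            (@Bool.rec (fun _ => Option Nat) none
              (ih (Nat.shiftRight s (nat_lit 9))
                (Nat.lor C (Nat.shiftLeft (nat_lit 1)
                  (Nat.add (Nat.mul (nat_lit 32) (Nat.mod (Nat.shiftRight s (nat_lit 5)) (nat_lit 16)))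
                    (Nat.mod s (nat_lit 32)))))
                (Nat.lor Nb (Nat.shiftLeft
                  (Nat.mod (Nat.shiftRight A (Nat.mul (nat_lit 32) (Nat.mod s (nat_lit 32))))
                    (nat_lit 4294967296))
                  (Nat.mul (nat_lit 32) (Nat.mod (Nat.shiftRight s (nat_lit 5)) (nat_lit 16)))))
                (Nat.lor seen (Nat.shiftLeft (nat_lit 1) (Nat.mod s (nat_lit 32)))))
              (@Bool.rec (fun _ => Bool)
                (@Bool.rec (fun _ => Bool) true false
                  (Nat.beq (Nat.land
                    (Nat.mod (Nat.shiftRight A (Nat.mul (nat_lit 32) (Nat.mod s (nat_lit 32))))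
                      (nat_lit 4294967296))
                    (Nat.shiftRight C (Nat.mul (nat_lit 32)
                      (Nat.mod (Nat.shiftRight s (nat_lit 5)) (nat_lit 16))))) (nat_lit 0)))
                true
                (Nat.beq (Nat.mod (Nat.shiftRight C (Nat.mul (nat_lit 32)
                  (Nat.mod (Nat.shiftRight s (nat_lit 5)) (nat_lit 16)))) (nat_lit 4294967296))
                  (nat_lit 0))))
            none
            (Nat.beq (Nat.lor seen (Nat.shiftLeft (nat_lit 1) (Nat.mod s (nat_lit 32)))) seen))
          (Nat.ble (Nat.mod s (nat_lit 32)) m))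
        (@Bool.rec (fun _ => Option Nat) none (some (Nat.shiftRight s (nat_lit 5))) (pmc C Nb PE))
        (Nat.beq (Nat.mod s (nat_lit 32)) (nat_lit 31)))

/-- the decision tree: `N` has the neighbours of the new vertex, `M` has the vertices for which it is
known whether they are neighbours -/
noncomputable def run (L : List Bool) (bits : Nat) (Γ : List (Nat × Nat)) (z A B m : Nat) :
    Nat → Nat → Nat → Nat → Nat → Option Nat :=
  @Nat.rec (fun _ => Nat → Nat → Nat → Nat → Option Nat)
    (fun _ _ _ _ => none)
    (fun _ ih N S M s =>
      @Nat.rec (fun _ => Option Nat)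
        -- 0: the forest
        (@Bool.rec (fun _ => Option Nat) none
          (some (Nat.shiftRight s (Nat.add bits (nat_lit 3))))
          (isJ (ext A m N S) M L
            (Nat.mod (Nat.shiftRight s (nat_lit 3)) (Nat.shiftLeft (nat_lit 1) bits))
            (nat_lit 0) (nat_lit 0)))
        (fun t _ => @Nat.rec (fun _ => Option Nat)
          -- 1: a decision
          (@Bool.rec (fun _ => Option Nat) none
            (@Option.rec Nat (fun _ => Option Nat) none
              (fun s' => ih
                (Nat.lor N
                  (Nat.shiftLeft (nat_lit 1) (Nat.mod (Nat.shiftRight s (nat_lit 3)) (nat_lit 32))))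
                (Nat.lor S (Nat.shiftLeft (nat_lit 1)
                  (Nat.mul (nat_lit 32) (Nat.mod (Nat.shiftRight s (nat_lit 3)) (nat_lit 32)))))
                (Nat.lor (Nat.lor M
                  (Nat.shiftLeft (nat_lit 1) (Nat.mod (Nat.shiftRight s (nat_lit 3)) (nat_lit 32))))
                  (Nat.mod (Nat.shiftRight B
                    (Nat.mul (nat_lit 32) (Nat.mod (Nat.shiftRight s (nat_lit 3)) (nat_lit 32))))
                    (Nat.shiftLeft (nat_lit 1) m)))
                s')
              (ih N S (Nat.lor M
                (Nat.shiftLeft (nat_lit 1) (Nat.mod (Nat.shiftRight s (nat_lit 3)) (nat_lit 32))))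
                (Nat.shiftRight s (nat_lit 8))))
            (Nat.ble (Nat.succ (Nat.mod (Nat.shiftRight s (nat_lit 3)) (nat_lit 32))) m))
          (fun t _ => @Nat.rec (fun _ => Option Nat)
            -- 2: a bad graph
            (getk Γ (Nat.mod (Nat.shiftRight s (nat_lit 3)) (nat_lit 64)) (fun k X =>
              pat (ext A m N S) M X k
                (Nat.mod (Nat.shiftRight s (nat_lit 9))
                  (Nat.shiftLeft (nat_lit 1) (Nat.mul (nat_lit 5) k)))
                (nat_lit 400) (nat_lit 0)
                (Nat.shiftRight s (Nat.add (nat_lit 9) (Nat.mul (nat_lit 5) k)))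
                (Nat.mod (Nat.shiftRight s (nat_lit 9))
                  (Nat.shiftLeft (nat_lit 1) (Nat.mul (nat_lit 5) k)))
                (nat_lit 0) (nat_lit 0) (nat_lit 0)))
            (fun t _ => @Nat.rec (fun _ => Option Nat)
              -- 3: all known; no neighbours, or equal to a bad graph
              (@Bool.rec (fun _ => Option Nat) none
                (@Bool.rec (fun _ => Option Nat)
                  (@Bool.rec (fun _ => Option Nat)
                    (getk Γ (Nat.mod (Nat.shiftRight s (nat_lit 3)) (nat_lit 64)) (fun k X =>
                      @Bool.rec (fun _ => Option Nat) none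
                        (@Bool.rec (fun _ => Option Nat) none
                          (some (Nat.shiftRight s (nat_lit 9)))
                          (Nat.beq X (ext A m N S)))
                        (Nat.beq k (Nat.succ m))))
                    (some (Nat.shiftRight s (nat_lit 9)))
                    (Nat.beq N z))
                  (some (Nat.shiftRight s (nat_lit 9)))
                  (Nat.beq N (nat_lit 0)))
                (Nat.beq (Nat.succ M) (Nat.shiftLeft (nat_lit 1) (Nat.succ m))))
              (fun t _ => @Nat.rec (fun _ => Option Nat)
                -- 4: a Petersen minor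
                (pm (ext A m N S) m (nat_lit 40) (Nat.shiftRight s (nat_lit 3)) (nat_lit 0)
                  (nat_lit 0) (nat_lit 0))
                (fun _ _ => none) t) t) t) t)
        (Nat.mod s (nat_lit 8)))

/-- reads the neighbours of a new vertex -/
noncomputable def mk (A : Nat) :
    Nat → Nat → Nat → Nat → Nat → Nat → (Nat → Nat → Nat → Nat → Nat → Option (List Nat)) →
      Option (List Nat) :=
  @Nat.rec (fun _ => Nat → Nat → Nat → Nat → Nat →
      (Nat → Nat → Nat → Nat → Nat → Option (List Nat)) → Option (List Nat))
    (fun _ _ _ _ _ _ => none)
    (fun _ ih s N S R W K =>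
      @Bool.rec (fun _ => Option (List Nat))
        (ih (Nat.div s (nat_lit 32))
          (Nat.lor N (Nat.shiftLeft (nat_lit 1) (Nat.mod s (nat_lit 32))))
          (Nat.lor S (Nat.shiftLeft (nat_lit 1) (Nat.mul (nat_lit 32) (Nat.mod s (nat_lit 32)))))
          (Nat.lor R (Nat.mod (Nat.shiftRight A (Nat.mul (nat_lit 32) (Nat.mod s (nat_lit 32))))
            (nat_lit 4294967296)))
          (Nat.lor W (Nat.land (Nat.shiftRight A (Nat.mod s (nat_lit 32))) COL)) K)
        (K (Nat.div s (nat_lit 32)) N S R W)
        (Nat.beq (Nat.mod s (nat_lit 32)) (nat_lit 31)))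

/-- number of the bits below `k` -/
noncomputable def cnt (r : Nat) : Nat → Nat :=
  @Nat.rec (fun _ => Nat) (nat_lit 0)
    (fun k ih => Nat.add ih (Nat.mod (Nat.shiftRight r k) (nat_lit 2)))

/-- number of the odd rows below `k` -/
noncomputable def odds (A m : Nat) : Nat → Nat :=
  @Nat.rec (fun _ => Nat) (nat_lit 0)
    (fun k ih => Nat.add ih (Nat.mod (cnt (Nat.shiftRight A (Nat.mul (nat_lit 32) k)) m)
      (nat_lit 2)))

/-- equal contexts -/
noncomputable def eqG (a : List (Nat × Nat)) : List (Nat × Nat) → Bool :=
  @List.rec (Nat × Nat) (fun _ => List (Nat × Nat) → Bool)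
    (fun b => @List.rec (Nat × Nat) (fun _ => Bool) true (fun _ _ _ => false) b)
    (fun h _ ih b => @List.rec (Nat × Nat) (fun _ => Bool) false
      (fun h' b' _ => @Bool.rec (fun _ => Bool) false
        (@Bool.rec (fun _ => Bool) false (ih b') (Nat.beq h.2 h'.2)) (Nat.beq h.1 h'.1)) b) a

/-- the state is one of those which are treated elsewhere -/
noncomputable def getX (X : List (List (Nat × Nat) × Nat × Nat × Nat)) (Γ : List (Nat × Nat))
    (m A B : Nat) : Nat → Bool :=
  @List.rec (List (Nat × Nat) × Nat × Nat × Nat) (fun _ => Nat → Bool)
    (fun _ => false)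
    (fun h _ ih i =>
      @Bool.rec (fun _ => Bool) (ih (Nat.pred i))
        (@Bool.rec (fun _ => Bool) false
          (@Bool.rec (fun _ => Bool) false
            (@Bool.rec (fun _ => Bool) false (eqG h.1 Γ) (Nat.beq h.2.2.2 B))
            (Nat.beq h.2.2.1 A))
          (Nat.beq h.2.1 m))
        (Nat.beq i (nat_lit 0))) X

/-- the checker: `c` is the certificate of the state, the list has the certificates of the states
which are shown to be bad before -/
noncomputable def go (L : List Bool) (bits : Nat)
    (X : List (List (Nat × Nat) × Nat × Nat × Nat)) :
    Nat → List (Nat × Nat) → Nat → Nat → Nat → Nat → List Nat → Option (List Nat) :=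
  @Nat.rec (fun _ => List (Nat × Nat) → Nat → Nat → Nat → Nat → List Nat → Option (List Nat))
    (fun _ _ _ _ _ _ => none)
    (fun _ ih Γ m A B c l =>
      @Nat.rec (fun _ => Option (List Nat))
        -- 0: a new bad graph
        (@Bool.rec (fun _ => Option (List Nat)) none
          (mk A (nat_lit 40) (Nat.shiftRight c (nat_lit 2)) (nat_lit 0) (nat_lit 0) (nat_lit 0)
            (nat_lit 0) (fun c' N S R W =>
              @Bool.rec (fun _ => Option (List Nat)) none
              (@List.rec Nat (fun _ => Option (List Nat)) none (fun d l' _ =>
                @Option.rec (List Nat) (fun _ => Option (List Nat)) none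
                  (fun l'' => ih ((Nat.succ m, ext A m N S) :: Γ) m A B c' l'')
                  (ih Γ (Nat.succ m) (ext A m N S) (extB B m N S (Nat.lor N R) (Nat.lor S W)) d l'))
                l)
              (Nat.ble (Nat.succ N) (Nat.shiftLeft (nat_lit 1) m))))
          (Nat.ble m (nat_lit 29)))
        (fun t _ => @Nat.rec (fun _ => Option (List Nat))
          -- 1: a vertex with at most two neighbours
          (@Bool.rec (fun _ => Option (List Nat)) none
            (@Bool.rec (fun _ => Option (List Nat)) none
              (@Bool.rec (fun _ => Option (List Nat)) none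
                (@Option.rec Nat (fun _ => Option (List Nat)) none (fun _ => some l)
                  (run L bits Γ (nat_lit 0) A B m (nat_lit 40)
                    (Nat.shiftLeft (nat_lit 1) (Nat.mod (Nat.shiftRight c (nat_lit 2)) (nat_lit 32)))
                    (Nat.shiftLeft (nat_lit 1)
                      (Nat.mul (nat_lit 32) (Nat.mod (Nat.shiftRight c (nat_lit 2)) (nat_lit 32))))
                    (Nat.lor
                      (Nat.lor (Nat.shiftLeft (nat_lit 1) m)
                        (Nat.shiftLeft (nat_lit 1)
                          (Nat.mod (Nat.shiftRight c (nat_lit 2)) (nat_lit 32))))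
                      (Nat.mod (Nat.shiftRight B (Nat.mul (nat_lit 32)
                        (Nat.mod (Nat.shiftRight c (nat_lit 2)) (nat_lit 32))))
                        (Nat.shiftLeft (nat_lit 1) m)))
                    (Nat.shiftRight c (nat_lit 17))))
                (Nat.beq
                  (Nat.mod (Nat.shiftRight A (Nat.mul (nat_lit 32)
                    (Nat.mod (Nat.shiftRight c (nat_lit 2)) (nat_lit 32)))) (nat_lit 4294967296))
                  (Nat.lor
                    (Nat.shiftLeft (nat_lit 1) (Nat.mod (Nat.shiftRight c (nat_lit 7)) (nat_lit 32)))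
                    (Nat.shiftLeft (nat_lit 1)
                      (Nat.mod (Nat.shiftRight c (nat_lit 12)) (nat_lit 32))))))
              (Nat.ble (Nat.succ (Nat.mod (Nat.shiftRight c (nat_lit 2)) (nat_lit 32))) m))
            (Nat.ble m (nat_lit 29)))
          (fun t _ => @Nat.rec (fun _ => Option (List Nat))
            -- 2: a vertex outside
            (@Bool.rec (fun _ => Option (List Nat)) none
              (@Bool.rec (fun _ => Option (List Nat)) none
                (@Bool.rec (fun _ => Option (List Nat)) none
                  (@Option.rec Nat (fun _ => Option (List Nat)) none (fun _ => some l)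
                    (run L bits Γ
                      (Nat.shiftLeft (nat_lit 1)
                        (Nat.mod (Nat.shiftRight c (nat_lit 2)) (nat_lit 32)))
                      A B m (nat_lit 40) (nat_lit 0) (nat_lit 0)
                      (Nat.shiftLeft (nat_lit 1) m) (Nat.shiftRight c (nat_lit 7))))
                  (@Bool.rec (fun _ => Bool) (Nat.ble (odds A m m) (nat_lit 17)) true
                    (Nat.ble m (nat_lit 17))))
                (Nat.ble (Nat.succ (Nat.mod (Nat.shiftRight c (nat_lit 2)) (nat_lit 32))) m))
              (Nat.ble m (nat_lit 29)))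
            (fun t _ => @Nat.rec (fun _ => Option (List Nat))
              -- 3: treated elsewhere
              (@Bool.rec (fun _ => Option (List Nat)) none (some l)
                (getX X Γ m A B (Nat.shiftRight c (nat_lit 2))))
              (fun _ _ => none) t) t) t)
        (Nat.mod c (nat_lit 4)))

end Pool.Agent.W5h9.LF
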