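import Pool.Agent.W5h9.LF.Run

set_option autoImplicit false
set_option linter.unusedVariables false

/-!
# Soundness of the checker
-/

namespace Pool.Agent.W5h9.LF

open Relation
open Pool.Agent.R140.PK (dg dg_zero dg_succ lor_bit land_bit shl_bit bit_bit ne_zero_testBit)

theorem eqG_spec : ∀ a b : List (Nat × Nat), eqG a b = true → a = b := by
  intro a
  induction a with
  | nil =>
    intro b h
    cases b with
    | nil => rfl
    | cons h' b' => exact absurd h (by simp [eqG])
  | cons g a ih =>
    intro b h
    cases b with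
    | nil => exact absurd h (by simp [eqG])
    | cons g' b' =>
      have h0 : @Bool.rec (fun _ => Bool) false
        (@Bool.rec (fun _ => Bool) false (eqG a b') (Nat.beq g.2 g'.2)) (Nat.beq g.1 g'.1) =
        true := h
      obtain ⟨h1, h2⟩ := brT h0
      obtain ⟨h3, h4⟩ := brT h2
      rw [ih b' h4]
      congr 1
      exact Prod.ext (Nat.eq_of_beq_eq_true h1) (Nat.eq_of_beq_eq_true h3)

theorem getX_spec (Γ : List (Nat × Nat)) (m A B : Nat) :
    ∀ (X : List (List (Nat × Nat) × Nat × Nat × Nat)) (i : Nat), getX X Γ m A B i = true →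
      (Γ, m, A, B) ∈ X := by
  intro X
  induction X with
  | nil => intro i h; exact absurd h (by simp [getX])
  | cons x X ih =>
    intro i h
    have h0 : @Bool.rec (fun _ => Bool) (getX X Γ m A B (Nat.pred i))
        (@Bool.rec (fun _ => Bool) false
          (@Bool.rec (fun _ => Bool) false
            (@Bool.rec (fun _ => Bool) false (eqG x.1 Γ) (Nat.beq x.2.2.2 B))
            (Nat.beq x.2.2.1 A))
          (Nat.beq x.2.1 m))
        (Nat.beq i (nat_lit 0)) = true := h
    cases hb : Nat.beq i (nat_lit 0)
    · rw [hb] at h0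
      exact List.mem_cons_of_mem _ (ih _ h0)
    · rw [hb] at h0
      obtain ⟨h1, h2⟩ := brT h0
      obtain ⟨h3, h4⟩ := brT h2
      obtain ⟨h5, h6⟩ := brT h4
      have e1 := Nat.eq_of_beq_eq_true h1
      have e2 := Nat.eq_of_beq_eq_true h3
      have e3 := Nat.eq_of_beq_eq_true h5
      have e4 := eqG_spec _ _ h6
      have : (Γ, m, A, B) = x := by
        rw [← e1, ← e2, ← e3, ← e4]
      rw [this]
      exact List.mem_cons_self

section
variable (L : List Bool) (bits : Nat) (X : List (List (Nat × Nat) × Nat × Nat × Nat))
  (f : Nat) (Γ : List (Nat × Nat)) (m A B c : Nat) (l : List Nat)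

theorem go_t0 (h : Nat.mod c (nat_lit 4) = 0) : go L bits X (f + 1) Γ m A B c l =
    @Bool.rec (fun _ => Option (List Nat)) none
          (mk A (nat_lit 40) (Nat.shiftRight c (nat_lit 2)) (nat_lit 0) (nat_lit 0) (nat_lit 0)
            (nat_lit 0) (fun c' N S R W =>
              @Bool.rec (fun _ => Option (List Nat)) none
              (@List.rec Nat (fun _ => Option (List Nat)) none (fun d l' _ =>
                @Option.rec (List Nat) (fun _ => Option (List Nat)) none
                  (fun l'' => go L bits X f ((Nat.succ m, ext A m N S) :: Γ) m A B c' l'')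
                  (go L bits X f Γ (Nat.succ m) (ext A m N S)
                    (extB B m N S (Nat.lor N R) (Nat.lor S W)) d l'))
                l)
              (Nat.ble (Nat.succ N) (Nat.shiftLeft (nat_lit 1) m))))
          (Nat.ble m (nat_lit 29)) := by
  show @Nat.rec (fun _ => Option (List Nat)) _ _ (Nat.mod c (nat_lit 4)) = _
  rw [h] <;> rfl

theorem go_t1 (h : Nat.mod c (nat_lit 4) = 1) : go L bits X (f + 1) Γ m A B c l =
    @Bool.rec (fun _ => Option (List Nat)) none
            (@Bool.rec (fun _ => Option (List Nat)) none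
              (@Bool.rec (fun _ => Option (List Nat)) none
                (@Option.rec Nat (fun _ => Option (List Nat)) none (fun _ => some l)
                  (run L bits Γ (nat_lit 0) A B m (nat_lit 40)
                    (Nat.shiftLeft (nat_lit 1) (Nat.mod (Nat.shiftRight c (nat_lit 2)) (nat_lit 32)))
                    (Nat.shiftLeft (nat_lit 1)
                      (Nat.mul (nat_lit 32) (Nat.mod (Nat.shiftRight c (nat_lit 2)) (nat_lit 32))))
                    (Nat.lor
                      (Nat.lor (Nat.shiftLeft (nat_lit 1) m)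
                        (Nat.shiftLeft (nat_lit 1)
                          (Nat.mod (Nat.shiftRight c (nat_lit 2)) (nat_lit 32))))
                      (Nat.mod (Nat.shiftRight B (Nat.mul (nat_lit 32)
                        (Nat.mod (Nat.shiftRight c (nat_lit 2)) (nat_lit 32))))
                        (Nat.shiftLeft (nat_lit 1) m)))
                    (Nat.shiftRight c (nat_lit 17))))
                (Nat.beq
                  (Nat.mod (Nat.shiftRight A (Nat.mul (nat_lit 32)
                    (Nat.mod (Nat.shiftRight c (nat_lit 2)) (nat_lit 32)))) (nat_lit 4294967296))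
                  (Nat.lor
                    (Nat.shiftLeft (nat_lit 1) (Nat.mod (Nat.shiftRight c (nat_lit 7)) (nat_lit 32)))
                    (Nat.shiftLeft (nat_lit 1)
                      (Nat.mod (Nat.shiftRight c (nat_lit 12)) (nat_lit 32))))))
              (Nat.ble (Nat.succ (Nat.mod (Nat.shiftRight c (nat_lit 2)) (nat_lit 32))) m))
            (Nat.ble m (nat_lit 29)) := by
  show @Nat.rec (fun _ => Option (List Nat)) _ _ (Nat.mod c (nat_lit 4)) = _
  rw [h] <;> rfl

theorem go_t2 (h : Nat.mod c (nat_lit 4) = 2) : go L bits X (f + 1) Γ m A B c l =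
    @Bool.rec (fun _ => Option (List Nat)) none
              (@Bool.rec (fun _ => Option (List Nat)) none
                (@Bool.rec (fun _ => Option (List Nat)) none
                  (@Option.rec Nat (fun _ => Option (List Nat)) none (fun _ => some l)
                    (run L bits Γ
                      (Nat.shiftLeft (nat_lit 1)
                        (Nat.mod (Nat.shiftRight c (nat_lit 2)) (nat_lit 32)))
                      A B m (nat_lit 40) (nat_lit 0) (nat_lit 0)
                      (Nat.shiftLeft (nat_lit 1) m) (Nat.shiftRight c (nat_lit 7))))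
                  (@Bool.rec (fun _ => Bool) (Nat.ble (odds A m m) (nat_lit 17)) true
                    (Nat.ble m (nat_lit 17))))
                (Nat.ble (Nat.succ (Nat.mod (Nat.shiftRight c (nat_lit 2)) (nat_lit 32))) m))
              (Nat.ble m (nat_lit 29)) := by
  show @Nat.rec (fun _ => Option (List Nat)) _ _ (Nat.mod c (nat_lit 4)) = _
  rw [h] <;> rfl

theorem go_t3 (h : Nat.mod c (nat_lit 4) = 3) : go L bits X (f + 1) Γ m A B c l =
    @Bool.rec (fun _ => Option (List Nat)) none (some l)
                (getX X Γ m A B (Nat.shiftRight c (nat_lit 2))) := by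
  show @Nat.rec (fun _ => Option (List Nat)) _ _ (Nat.mod c (nat_lit 4)) = _
  rw [h] <;> rfl

theorem go_t4 (t : Nat) (h : Nat.mod c (nat_lit 4) = t + 4) :
    go L bits X (f + 1) Γ m A B c l = none := by
  show @Nat.rec (fun _ => Option (List Nat)) _ _ (Nat.mod c (nat_lit 4)) = _
  rw [h] <;> rfl

end

theorem shl_one (a : Nat) : Nat.shiftLeft (nat_lit 1) a = 2 ^ a := by
  have : Nat.shiftLeft (nat_lit 1) a = 1 <<< a := rfl
  rw [this, Nat.one_shiftLeft]

section
variable {V : Type} {R : V → V → Prop}

/-- the neighbours of a new vertex, as a number -/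
theorem exists_nbrs (m : Nat) (φ : Nat → V) (w : V) :
    ∃ T : Nat, ∀ i, T.testBit i = true ↔ (i < m ∧ R w (φ i)) := by
  classical
  refine ⟨Nat.ofBits (fun i : Fin m => decide (R w (φ i))), fun i => ?_⟩
  by_cases h3 : i < m
  · rw [Nat.testBit_ofBits_lt _ _ h3, decide_eq_true_eq]
    exact ⟨fun h => ⟨h3, h⟩, fun h => h.2⟩
  · rw [Nat.testBit_ofBits_ge _ _ (by omega)]
    constructor
    · intro h; simp at h
    · intro h; exact absurd h.1 h3

theorem go_sound {L : List Bool} (hR : Hyp R L) {bits : Nat}
    {X : List (List (Nat × Nat) × Nat × Nat × Nat)}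
    (hX : ∀ x ∈ X, (∀ g ∈ x.1, Good R g) → Val x.2.1 x.2.2.1 → BV x.2.1 x.2.2.1 x.2.2.2 →
      2 ≤ x.2.1 → Bad R x.2.1 x.2.2.1) : ∀ (f : Nat) (Γ : List (Nat × Nat)) (m A B c : Nat)
    (l out : List Nat), (∀ g ∈ Γ, Good R g) → Val m A → BV m A B → 2 ≤ m →
    go L bits X f Γ m A B c l = some out → Bad R m A := by
  intro f
  induction f with
  | zero => intro Γ m A B c l out _ _ _ _ h; exact absurd h (by simp [go])
  | succ f ih =>
    intro Γ m A B c l out hΓ hA hB hm2 h
    rcases hq : Nat.mod c (nat_lit 4) with _ | _ | _ | _ | t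
    · -- a new bad graph
      rw [go_t0 L bits X f Γ m A B c l hq] at h
      obtain ⟨h1, h2⟩ := brN h
      have hm : m ≤ 29 := Nat.le_of_ble_eq_true h1
      obtain ⟨c', N, S, R', W, hI, h3⟩ := mk_spec A _ _ _ _ _ _ _ out (minv_zero A) h2
      obtain ⟨h4, h5⟩ := brN h3
      have hNlt : N < 2 ^ m := by
        have : N + 1 ≤ Nat.shiftLeft (nat_lit 1) m := Nat.le_of_ble_eq_true h4
        rw [shl_one] at this
        omega
      have hN : ∀ i, N.testBit i = true → i < m := by
        intro i hi
        by_contra hcon
        rw [Nat.testBit_lt_two_pow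
          (lt_of_lt_of_le hNlt (Nat.pow_le_pow_right (by omega) (by omega)))] at hi
        simp at hi
      cases l with
      | nil => exact absurd h5 (by simp)
      | cons d l' =>
        have h6 : @Option.rec (List Nat) (fun _ => Option (List Nat)) none
            (fun l'' => go L bits X f ((Nat.succ m, ext A m N S) :: Γ) m A B c' l'')
            (go L bits X f Γ (Nat.succ m) (ext A m N S)
              (extB B m N S (Nat.lor N R') (Nat.lor S W)) d l') = some out := h5
        rcases hr : go L bits X f Γ (Nat.succ m) (ext A m N S)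
              (extB B m N S (Nat.lor N R') (Nat.lor S W)) d l' with _ | l''
        · rw [hr] at h6
          exact absurd h6 (by simp)
        · rw [hr] at h6
          have hval := val_ext (by omega) hN hI.s hA
          have hbad : Bad R (m + 1) (ext A m N S) :=
            ih Γ (m + 1) (ext A m N S) _ d l' l'' hΓ hval
              (bv_ext (by omega) hN hI hA hB) (by omega) hr
          refine ih ((Nat.succ m, ext A m N S) :: Γ) m A B c' l'' out ?_ hA hB hm2 h6
          intro g hg
          rcases List.mem_cons.1 hg with rfl | hg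
          · exact ⟨Nat.succ_pos m, by show m + 1 < 32; omega, hval, hbad⟩
          · exact hΓ g hg
    · -- a vertex with at most two neighbours
      rw [go_t1 L bits X f Γ m A B c l hq] at h
      obtain ⟨v, hv⟩ : ∃ v, v = Nat.mod (Nat.shiftRight c (nat_lit 2)) (nat_lit 32) := ⟨_, rfl⟩
      rw [← hv] at h
      obtain ⟨h1, h2⟩ := brN h
      obtain ⟨h3, h4⟩ := brN h2
      obtain ⟨h5, h6⟩ := brN h4
      have hm : m ≤ 29 := Nat.le_of_ble_eq_true h1
      have hvm : v < m := Nat.le_of_ble_eq_true h3
      have h5' := Nat.eq_of_beq_eq_true h5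
      intro φ he
      rcases hr : run L bits Γ (nat_lit 0) A B m (nat_lit 40)
                    (Nat.shiftLeft (nat_lit 1) v)
                    (Nat.shiftLeft (nat_lit 1) (Nat.mul (nat_lit 32) v))
                    (Nat.lor (Nat.lor (Nat.shiftLeft (nat_lit 1) m)
                        (Nat.shiftLeft (nat_lit 1) v))
                      (Nat.mod (Nat.shiftRight B (Nat.mul (nat_lit 32) v))
                        (Nat.shiftLeft (nat_lit 1) m)))
                    (Nat.shiftRight c (nat_lit 17)) with _ | s'
      · rw [hr] at h6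
        exact absurd h6 (by simp)
      obtain ⟨b, hb⟩ := he.nbr v hvm
      obtain ⟨w, hw1, hw2⟩ := hR.deg _ _ hb
        [φ (Nat.mod (Nat.shiftRight c (nat_lit 7)) (nat_lit 32)),
          φ (Nat.mod (Nat.shiftRight c (nat_lit 12)) (nat_lit 32))] (by simp)
      obtain ⟨T, hT⟩ := exists_nbrs (R := R) m φ w
      have hw : ∀ i, i < m → φ i ≠ w := by
        rintro i hi rfl
        have h7 := (he.adj v i hvm hi).1 hw1
        have h8 : (Nat.mod (Nat.shiftRight A (Nat.mul (nat_lit 32) v))
            (nat_lit 4294967296)).testBit i = true := by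
          rw [mod32_bit, shr_bit, Bool.and_eq_true, decide_eq_true_eq]
          exact ⟨by omega, h7⟩
        rw [h5', lor_bit, one_bit, one_bit, Bool.or_eq_true, decide_eq_true_eq,
          decide_eq_true_eq] at h8
        apply hw2
        rcases h8 with h8 | h8
        · rw [h8]; simp
        · rw [h8]; simp
      have hTv : T.testBit v = true := (hT v).2 ⟨hvm, hR.symm _ _ hw1⟩
      have hT0 : T ≠ 0 := by
        rintro rfl
        rw [Nat.zero_testBit] at hTv
        simp at hTv
      have hmul : Nat.mul (nat_lit 32) v = 32 * v := rfl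
      rw [hmul] at hr
      have hM : ∀ x, (Nat.lor (Nat.lor (Nat.shiftLeft (nat_lit 1) m)
                        (Nat.shiftLeft (nat_lit 1) v))
                      (Nat.mod (Nat.shiftRight B (32 * v))
                        (Nat.shiftLeft (nat_lit 1) m))).testBit x = true ↔
          ((m = x ∨ v = x) ∨ (x < m ∧ B.testBit (32 * v + x) = true)) := by
        intro x
        rw [lor_bit, lor_bit, one_bit, one_bit, modp_bit, shr_bit, Bool.or_eq_true,
          Bool.or_eq_true, Bool.and_eq_true, decide_eq_true_eq, decide_eq_true_eq,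
          decide_eq_true_eq]
      refine run_sound hR (by omega) hA hB he hw ⟨_, hR.symm _ _ hw1⟩ hT hT0 hT0 hΓ _ _ _ _ _ s'
        ?_ ?_ ?_ ?_ ?_ hr
      · intro x hx
        rw [hM] at hx
        rcases hx with (hx | hx) | hx <;> omega
      · rw [hM]; exact Or.inl (Or.inl rfl)
      · intro x hx hMx
        rw [one_bit, decide_eq_true_eq]
        rw [hM] at hMx
        by_cases hvx : v = x
        · subst hvx; simp [hTv]
        · rcases hMx with (hMx | hMx) | ⟨_, hMx⟩
          · omega
          · exact absurd hMx hvx
          · obtain ⟨a1, a2, a3⟩ := hB v x (by omega) hMx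
            have h7 := not_both hR he hw hvm hx hvx (a3.resolve_left hvx) ((hT v).1 hTv).2
            constructor
            · intro h; exact absurd h hvx
            · intro h; exact absurd ((hT x).1 h).2 h7
      · intro x hx
        rw [one_bit, decide_eq_true_eq] at hx
        subst hx
        exact ⟨hvm, (hM _).2 (Or.inl (Or.inr rfl))⟩
      · intro x
        rw [one_bit, one_bit, decide_eq_true_eq, decide_eq_true_eq]
        constructor
        · intro h; exact ⟨by omega, by omega⟩
        · rintro ⟨h, h'⟩; omega
    · -- a vertex outside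
      rw [go_t2 L bits X f Γ m A B c l hq] at h
      obtain ⟨x, hx⟩ : ∃ x, x = Nat.mod (Nat.shiftRight c (nat_lit 2)) (nat_lit 32) := ⟨_, rfl⟩
      rw [← hx] at h
      obtain ⟨h1, h2⟩ := brN h
      obtain ⟨h3, h4⟩ := brN h2
      obtain ⟨h5, h6⟩ := brN h4
      have hm : m ≤ 29 := Nat.le_of_ble_eq_true h1
      have hxm : x < m := Nat.le_of_ble_eq_true h3
      have hok : m ≤ 17 ∨ odds A m m ≤ 17 := by
        cases hb : Nat.ble m (nat_lit 17)
        · rw [hb] at h5
          exact Or.inr (Nat.le_of_ble_eq_true h5)
        · exact Or.inl (Nat.le_of_ble_eq_true hb)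
      intro φ he
      rcases hr : run L bits Γ (Nat.shiftLeft (nat_lit 1) x) A B m (nat_lit 40) (nat_lit 0)
          (nat_lit 0) (Nat.shiftLeft (nat_lit 1) m) (Nat.shiftRight c (nat_lit 7)) with _ | s'
      · rw [hr] at h6
        exact absurd h6 (by simp)
      by_cases hcl : ∀ i, i < m → i ≠ x → ∀ y, R (φ i) y → ∃ j, j < m ∧ φ j = y
      · exact hR.cl m A φ hm2 he x hxm hcl hok
      · push Not at hcl
        obtain ⟨i, hi, hix, w, hiw, hw⟩ := hcl
        obtain ⟨T, hT⟩ := exists_nbrs (R := R) m φ w
        have hTi : T.testBit i = true := (hT i).2 ⟨hi, hR.symm _ _ hiw⟩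
        refine run_sound hR (T := T) (w := w) (by omega) hA hB he (fun j hj => hw j hj)
          ⟨_, hR.symm _ _ hiw⟩ hT ?_ ?_ hΓ _ _ _ _ _ s' ?_ ?_ ?_ ?_ ?_ hr
        · rintro rfl
          rw [Nat.zero_testBit] at hTi
          simp at hTi
        · intro h7
          rw [h7, one_bit, decide_eq_true_eq] at hTi
          exact hix hTi.symm
        · intro y hy
          rw [one_bit, decide_eq_true_eq] at hy
          omega
        · rw [one_bit]; simp
        · intro y hy hMy
          rw [one_bit, decide_eq_true_eq] at hMy
          omega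
        · intro y hy
          rw [Nat.zero_testBit] at hy
          simp at hy
        · intro y
          rw [Nat.zero_testBit, Nat.zero_testBit]
          simp
    · -- treated elsewhere
      rw [go_t3 L bits X f Γ m A B c l hq] at h
      obtain ⟨h1, -⟩ := brN h
      exact hX _ (getX_spec Γ m A B X _ h1) hΓ hA hB hm2
    · rw [go_t4 L bits X f Γ m A B c l t hq] at h
      exact absurd h (by simp)

theorem start_bits {x : Nat} (h : (4294967298 : Nat).testBit x = true) : x = 1 ∨ x = 32 := by
  have h1 : ∀ x, x < 64 → (4294967298 : Nat).testBit x = true → x = 1 ∨ x = 32 := by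
    decide +kernel
  by_cases h2 : x < 64
  · exact h1 x h2 h
  · exfalso
    have h3 : (4294967298 : Nat) < 2 ^ 64 := by decide
    rw [Nat.testBit_lt_two_pow (lt_of_lt_of_le h3 (Nat.pow_le_pow_right (by omega) (by omega)))] at h
    simp at h

theorem val_start : Val 2 4294967298 := by
  intro i j hj h
  rcases start_bits h with h1 | h1
  · have e1 : i = 0 := by omega
    have e2 : j = 1 := by omega
    subst e1; subst e2
    exact ⟨by omega, by omega, by omega, by decide +kernel⟩
  · have e1 : i = 1 := by omega
    have e2 : j = 0 := by omega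
    subst e1; subst e2
    exact ⟨by omega, by omega, by omega, by decide +kernel⟩

theorem main {L : List Bool} (hR : Hyp R L) {bits : Nat}
    (X : List (List (Nat × Nat) × Nat × Nat × Nat))
    (hX : ∀ x ∈ X, ∃ (c : Nat) (l : List Nat),
      (go L bits [] 4000 x.1 x.2.1 x.2.2.1 x.2.2.2 c l).isSome = true)
    (c : Nat) (l : List Nat)
    (h : (go L bits X 4000 [] 2 4294967298 4294967298 c l).isSome = true) (a b : V)
    (hab : R a b) : False := by
  obtain ⟨out, ho⟩ := Option.isSome_iff_exists.1 h
  have hX' : ∀ x ∈ X, (∀ g ∈ x.1, Good R g) → Val x.2.1 x.2.2.1 → BV x.2.1 x.2.2.1 x.2.2.2 →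
      2 ≤ x.2.1 → Bad R x.2.1 x.2.2.1 := by
    intro x hx h1 h2 h3 h4
    obtain ⟨c', l', h5⟩ := hX x hx
    obtain ⟨out', ho'⟩ := Option.isSome_iff_exists.1 h5
    exact go_sound hR (X := []) (fun x hx => absurd hx (by simp)) _ _ _ _ _ _ _ out' h1 h2 h3 h4 ho'
  have hbad := go_sound hR hX' _ _ _ _ _ _ _ out (fun g hg => absurd hg (by simp)) val_start
    (by
      intro i j hj h
      obtain ⟨h1, h2, h3, h4⟩ := val_start i j hj h
      exact ⟨h1, h2, Or.inr (Or.inl h)⟩) le_rfl ho
  have hab' : a ≠ b := by
    rintro rfl
    exact hR.irr _ hab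
  refine hbad (fun i => if i = 0 then a else b) ⟨?_, ?_, ?_⟩
  · intro i j hi hj
    have hi' : i = 0 ∨ i = 1 := by omega
    have hj' : j = 0 ∨ j = 1 := by omega
    rcases hi' with rfl | rfl <;> rcases hj' with rfl | rfl
    · have : (4294967298 : Nat).testBit (32 * 0 + 0) = false := by decide +kernel
      rw [this]
      simpa using hR.irr a
    · have : (4294967298 : Nat).testBit (32 * 0 + 1) = true := by decide +kernel
      rw [this]
      simpa using hab
    · have : (4294967298 : Nat).testBit (32 * 1 + 0) = true := by decide +kernel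
      rw [this]
      simpa using hR.symm _ _ hab
    · have : (4294967298 : Nat).testBit (32 * 1 + 1) = false := by decide +kernel
      rw [this]
      simpa using hR.irr b
  · intro i j hi hj hij
    have hi' : i = 0 ∨ i = 1 := by omega
    have hj' : j = 0 ∨ j = 1 := by omega
    rcases hi' with rfl | rfl <;> rcases hj' with rfl | rfl
    · rfl
    · exact absurd (by simpa using hij) hab'
    · exact absurd (by simpa using hij.symm) hab'
    · rfl
  · intro i hi
    have hi' : i = 0 ∨ i = 1 := by omega
    rcases hi' with rfl | rfl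
    · exact ⟨b, by simpa using hab⟩
    · exact ⟨a, by simpa using hR.symm _ _ hab⟩

end

end Pool.Agent.W5h9.LF
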