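import Pool.Agent.R140.PK.Lift
import Pool.Agent.TH362.TF.Contr
import Pool.Agent.W5h9.LF.Go

set_option autoImplicit false
set_option linter.unusedSectionVars false
set_option linter.unusedVariables false

/-!
# Minimal contractions without nowhere-zero flow: cut vertices, small closed sets
-/

namespace Pool.Agent.W5h9.LF

open Finset Relation Pool.Agent.TH362.TF Pool.Agent.TH362.TF.Four Pool.Agent.R890.FF
open Pool.Agent.R140.PK (Mc St ConnS FC comp mem_comp comp_symm rtg_symm St.symm St.mono
  connS_of cons_out exists_Mc lor_bit)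

variable {V E : Type} [Fintype V] [DecidableEq V] [DecidableEq E]

section
variable {s t : E → V} {S : Finset E}

theorem cons_last {φ : E → F} {x : V} (h : ∀ v, v ≠ x → Cons s t S φ v) : Cons s t S φ x := by
  have h1 := flow_cut (s := s) (t := t) (S := S) (φ := φ) (fun v => decide (v ≠ x))
    (fun v hv => h v (by simpa using hv))
  unfold cut at h1
  rw [Finset.sum_filter] at h1
  unfold Cons
  refine Eq.trans (Finset.sum_congr rfl fun e _ => ?_) h1
  by_cases h2 : s e = x <;> by_cases h3 : t e = x <;> simp [h2, h3, addF]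

/-- the set of the vertices which can be reached inside of `P` -/
noncomputable def reach (s t : E → V) (S : Finset E) (P : V → Prop) (x : V) : Finset V :=
  haveI := Classical.decPred (ReflTransGen (St s t S P) x)
  univ.filter (ReflTransGen (St s t S P) x)

theorem mem_reach {P : V → Prop} {x y : V} :
    y ∈ reach s t S P x ↔ ReflTransGen (St s t S P) x y := by
  classical
  unfold reach
  rw [mem_filter]
  exact ⟨fun h => h.2, fun h => ⟨mem_univ _, h⟩⟩

theorem reach_sub {P : V → Prop} {x y : V} (hx : P x) (h : y ∈ reach s t S P x) : P y := by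
  rw [mem_reach] at h
  induction h with
  | refl => exact hx
  | tail _ h2 _ => exact h2.2.2

theorem reach_conn {P : V → Prop} {x : V} :
    ConnS s t S (fun y => y ∈ reach s t S P x) := by
  refine connS_of (a := x) ?_
  intro y hy
  rw [mem_reach] at hy
  induction hy with
  | refl => exact ReflTransGen.refl
  | tail h1 h2 ih =>
    exact ih.tail ⟨h2.1, mem_reach.2 h1, mem_reach.2 (h1.tail h2)⟩

/-- there are no cut vertices -/
theorem cut_vertex (h : Mc s t S) {T : V → Prop} {x v0 b0 : V} (hx : T x) (hv0 : T v0)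
    (hne : v0 ≠ x) (hb0 : Nb s t S v0 b0)
    (hT : ∀ v, T v → v ≠ x → ∀ y, Nb s t S v y → T y) : ∀ y, Nb s t S x y → T y := by
  classical
  intro z hz
  by_contra hTz
  -- the vertex `x` has a neighbour in `T`
  have hxz : v0 ∈ comp s t S x := h.one_comp hz hb0
  have key : ∀ y, ReflTransGen (fun u w => ∃ e ∈ S, Ends s t u w e) x y → T y → y ≠ x →
      ∃ u, T u ∧ Nb s t S x u := by
    intro y hy
    induction hy with
    | refl => intro _ h2; exact absurd rfl h2
    | tail h1 h2 ih =>
      rename_i p q
      intro hq hqx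
      by_cases hpq : q = p
      · subst hpq
        exact ih hq hqx
      · have hN : Nb s t S p q := ⟨hpq, h2⟩
        by_cases hpx : p = x
        · subst hpx
          exact ⟨q, hq, hN⟩
        · exact ih (hT q hq hqx p (nb_comm hN)) hpx
  obtain ⟨u, hu, hxu⟩ := key v0 (mem_comp.1 hxz) hv0 hne
  have hux : u ≠ x := hxu.1
  have hzx : z ≠ x := hz.1
  -- the contraction of the part outside of `T`
  have hmem : ∀ (P : V → Prop) (y : V), P x → P y → Nb s t S x y →
      ∃ e ∈ S, s e ≠ t e ∧ s e ∈ reach s t S P x ∧ t e ∈ reach s t S P x := by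
    rintro P y hPx hPy ⟨hne, e, he, hE⟩
    have h0 : x ∈ reach s t S P x := mem_reach.2 ReflTransGen.refl
    have h1 : y ∈ reach s t S P x := mem_reach.2 (ReflTransGen.single ⟨⟨e, he, hE⟩, hPx, hPy⟩)
    refine ⟨e, he, R890.FF.ends_ne hE (Ne.symm hne), ?_⟩
    rcases hE with ⟨h4, h5⟩ | ⟨h4, h5⟩
    · rw [h4, h5]; exact ⟨h0, h1⟩
    · rw [h4, h5]; exact ⟨h1, h0⟩
  have hPB : (fun v => ¬ T v ∨ v = x) x := Or.inr rfl
  obtain ⟨φB, p1, p2⟩ := h.mn (reach s t S (fun v => ¬ T v ∨ v = x) x) x
    (mem_reach.2 ReflTransGen.refl) reach_conn (hmem _ z hPB (Or.inl hTz) hz)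
  obtain ⟨φA, q1, q2⟩ := h.mn (reach s t S T x) x
    (mem_reach.2 ReflTransGen.refl) reach_conn (hmem _ u hx hu hxu)
  refine h.nz ⟨fun e => if T (s e) ∧ T (t e) then φB e else φA e, fun e he => ?_, ?_⟩
  · by_cases h1 : T (s e) ∧ T (t e)
    · simp only [h1]; exact p1 e he
    · simp only [h1, if_false]; exact q1 e he
  have hall : ∀ v, v ≠ x →
      Cons s t S (fun e => if T (s e) ∧ T (t e) then φB e else φA e) v := by
    intro v hvx
    by_cases hTv : T v
    · have h1 := cons_out (mem_reach.2 ReflTransGen.refl) p2 v (fun h2 => by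
        rcases reach_sub (P := fun v => ¬ T v ∨ v = x) hPB h2 with h3 | h3
        · exact h3 hTv
        · exact hvx h3)
      unfold Cons at h1 ⊢
      refine Eq.trans (Finset.sum_congr rfl fun e he => ?_) h1
      have hother : (s e = v ∨ t e = v) → T (s e) ∧ T (t e) := by
        rintro (h3 | h3)
        · refine ⟨h3 ▸ hTv, ?_⟩
          by_cases h4 : t e = v
          · exact h4 ▸ hTv
          · exact hT v hTv hvx (t e) ⟨h4, e, he, Or.inl ⟨h3, rfl⟩⟩
        · refine ⟨?_, h3 ▸ hTv⟩
          by_cases h4 : s e = v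
          · exact h4 ▸ hTv
          · exact hT v hTv hvx (s e) ⟨h4, e, he, Or.inr ⟨rfl, h3⟩⟩
      by_cases h3 : s e = v
      · simp only [hother (Or.inl h3)]
        simp
      · by_cases h4 : t e = v
        · simp only [hother (Or.inr h4)]
          simp
        · simp only [h3, h4, if_false]
    · have h1 := cons_out (mem_reach.2 ReflTransGen.refl) q2 v (fun h2 =>
        hTv (reach_sub hx h2))
      unfold Cons at h1 ⊢
      refine Eq.trans (Finset.sum_congr rfl fun e he => ?_) h1
      by_cases h3 : s e = v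
      · have h4 : ¬ (T (s e) ∧ T (t e)) := fun h5 => hTv (h3 ▸ h5.1)
        simp only [h4, if_false]
      · by_cases h4 : t e = v
        · have h5 : ¬ (T (s e) ∧ T (t e)) := fun h5 => hTv (h4 ▸ h5.2)
          simp only [h5, if_false]
        · simp only [h3, h4, if_false]
  intro v
  by_cases hvx : v = x
  · subst hvx
    exact cons_last hall
  · exact hall v hvx

theorem cnt_card (r k : Nat) :
    cnt r k = ((range k).filter (fun j => r.testBit j = true)).card := by
  induction k with
  | zero => rfl
  | succ k ih =>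
    have h : cnt r (k + 1) = cnt r k + (r >>> k) % 2 := rfl
    have h2 : r.testBit k = decide ((r >>> k) % 2 = 1) := by
      rw [Nat.testBit_eq_decide_div_mod_eq, Nat.shiftRight_eq_div_pow]
    rw [h, ih, range_add_one, filter_insert]
    rcases Nat.mod_two_eq_zero_or_one (r >>> k) with h3 | h3
    · have h4 : ¬ r.testBit k = true := by rw [h2, h3]; simp
      rw [if_neg h4, h3, add_zero]
    · have h4 : r.testBit k = true := by rw [h2, h3]; simp
      rw [if_pos h4, h3, card_insert_of_notMem (by simp)]

theorem odds_card (A m k : Nat) :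
    odds A m k = ((range k).filter (fun i =>
      ((range m).filter (fun j => A.testBit (32 * i + j) = true)).card % 2 = 1)).card := by
  induction k with
  | zero => rfl
  | succ k ih =>
    have h : odds A m (k + 1) =
      odds A m k + cnt (Nat.shiftRight A (Nat.mul (nat_lit 32) k)) m % 2 := rfl
    have h1 : cnt (Nat.shiftRight A (Nat.mul (nat_lit 32) k)) m =
        ((range m).filter (fun j => A.testBit (32 * k + j) = true)).card := by
      rw [cnt_card]
      congr 1
      refine filter_congr fun j _ => ?_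
      rw [shr_bit]
      rfl
    rw [h, h1, ih, range_add_one, filter_insert]
    rcases Nat.mod_two_eq_zero_or_one
      ((range m).filter (fun j => A.testBit (32 * k + j) = true)).card with h3 | h3
    · rw [if_neg (by rw [h3]; simp), h3, add_zero]
    · rw [if_pos h3, h3, card_insert_of_notMem (by simp)]

theorem Mc.hyp (h : Mc s t S) (L : List Bool)
    (hJ : ∀ p : Fin L.length → V, Function.Injective p → (∀ i, ∃ b, Nb s t S (p i) b) →
      ¬ ∀ i j : Fin L.length, i < j →
        (Nb s t S (p i) (p j) ↔ (i.val + 1 = j.val ∧ L[i.val]? = some true)))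
    (hP : ∀ B : Nat → Set V, (∀ c c', c ≠ c' → Disjoint (B c) (B c')) →
      (∀ c, ∀ x ∈ B c, ∃ b, Nb s t S x b) →
      (∀ c, ∀ x ∈ B c, ∀ y ∈ B c,
        ReflTransGen (fun u v => u ∈ B c ∧ v ∈ B c ∧ Nb s t S u v) x y) →
      ¬ ∀ e ∈ PE, ∃ x ∈ B e.1, ∃ y ∈ B e.2, Nb s t S x y) :
    Hyp (Nb s t S) L := by
  classical
  refine ⟨fun a b => nb_comm, fun a ha => ha.1 rfl, fun a b c => h.tri,
      fun a b c d => h.four, ?_, hJ, hP, ?_⟩
  · intro a b hab m hm
    have h1 : 0 < (univ.filter (Nb s t S a)).card :=
      card_pos.2 ⟨b, mem_filter.2 ⟨mem_univ _, hab⟩⟩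
    have h2 := h.nb_ne_one a
    have h3 := h.nb_ne_two a
    have h4 : m.toFinset.card < (univ.filter (Nb s t S a)).card := by
      have := List.toFinset_card_le m
      omega
    obtain ⟨w, hw, hw'⟩ := Finset.exists_mem_notMem_of_card_lt_card h4
    exact ⟨w, (mem_filter.1 hw).2, fun h => hw' (List.mem_toFinset.2 h)⟩
  · intro m A φ hm2 he x hxm hcl hok
    have h18 := h.odd18
    have hnb : ∀ y ∈ odd s t S, ∃ z, Nb s t S y z := by
      intro y hy
      rw [h.odd_nb y] at hy
      have h1 : 0 < (univ.filter (Nb s t S y)).card := by omega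
      obtain ⟨z, hz⟩ := card_pos.1 h1
      exact ⟨z, (mem_filter.1 hz).2⟩
    -- the set is closed
    have hcl' : ∀ i, i < m → ∀ y, Nb s t S (φ i) y → ∃ j, j < m ∧ φ j = y := by
      obtain ⟨i0, hi0, hi0x⟩ : ∃ i0, i0 < m ∧ i0 ≠ x := by
        by_cases h0 : x = 0
        · exact ⟨1, by omega, by omega⟩
        · exact ⟨0, by omega, fun h1 => h0 h1.symm⟩
      obtain ⟨b0, hb0⟩ := he.nbr i0 hi0
      have hx := cut_vertex h (T := fun v => ∃ j, j < m ∧ φ j = v) (x := φ x) (v0 := φ i0)
        (b0 := b0) ⟨x, hxm, rfl⟩ ⟨i0, hi0, rfl⟩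
        (fun h1 => hi0x (he.inj _ _ hi0 hxm h1)) hb0 (by
          rintro v ⟨j, hj, rfl⟩ hv y hy
          exact hcl j hj (fun h1 => hv (by rw [h1])) y hy)
      intro i hi y hy
      by_cases hix : i = x
      · subst hix; exact hx y hy
      · exact hcl i hi hix y hy
    have hsub : odd s t S ⊆ (range m).image φ := by
      intro y hy
      obtain ⟨z, hz⟩ := hnb y hy
      obtain ⟨b, hb⟩ := he.nbr 0 (by omega)
      have h1 := h.one_comp hb hz
      rw [mem_comp] at h1
      clear hz hy
      induction h1 with
      | refl => exact mem_image.2 ⟨0, mem_range.2 (by omega), rfl⟩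
      | tail hpq0 h2 ih =>
        rename_i p q
        by_cases hpq : q = p
        · rw [hpq]; exact ih
        · obtain ⟨i, hi, rfl⟩ := mem_image.1 ih
          obtain ⟨j, hj, hj'⟩ := hcl' i (mem_range.1 hi) q ⟨hpq, h2⟩
          exact mem_image.2 ⟨j, mem_range.2 hj, hj'⟩
    rcases hok with hok | hok
    · have h1 := card_le_card hsub
      have h2 : ((range m).image φ).card ≤ m := by
        have := card_image_le (s := range m) (f := φ)
        rwa [card_range] at this
      omega
    · rw [odds_card] at hok
      have h1 : odd s t S ⊆ ((range m).filter (fun i =>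
          ((range m).filter (fun j => A.testBit (32 * i + j) = true)).card % 2 = 1)).image φ := by
        intro y hy
        obtain ⟨i, hi, rfl⟩ := mem_image.1 (hsub hy)
        rw [mem_range] at hi
        refine mem_image.2 ⟨i, mem_filter.2 ⟨mem_range.2 hi, ?_⟩, rfl⟩
        rw [h.odd_nb (φ i)] at hy
        have h2 : (univ.filter (Nb s t S (φ i))) =
            ((range m).filter (fun j => A.testBit (32 * i + j) = true)).image φ := by
          ext y
          rw [mem_filter, mem_image]
          constructor
          · rintro ⟨-, h3⟩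
            obtain ⟨j, hj, rfl⟩ := hcl' i hi y h3
            exact ⟨j, mem_filter.2 ⟨mem_range.2 hj, (he.adj i j hi hj).1 h3⟩, rfl⟩
          · rintro ⟨j, hj, rfl⟩
            obtain ⟨hj1, hj2⟩ := mem_filter.1 hj
            exact ⟨mem_univ _, (he.adj i j hi (mem_range.1 hj1)).2 hj2⟩
        rw [h2, card_image_of_injOn] at hy
        · exact hy
        · intro j hj j' hj' hjj
          have h3 := mem_range.1 (mem_filter.1 (mem_coe.1 hj)).1
          have h4 := mem_range.1 (mem_filter.1 (mem_coe.1 hj')).1
          exact he.inj j j' h3 h4 hjj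
      have h2 := card_le_card h1
      have h3 := card_image_le (s := ((range m).filter (fun i =>
          ((range m).filter (fun j => A.testBit (32 * i + j) = true)).card % 2 = 1))) (f := φ)
      omega

end

end Pool.Agent.W5h9.LF
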