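import Pool.Agent.TH362.TF.Cyc
import Pool.Agent.W5h9.LF.Graph

set_option autoImplicit false
set_option linter.unusedSectionVars false
set_option linter.unusedVariables false

/-!
# Lifting of induced linear forests and of Petersen minors from a contraction
-/

namespace Pool.Agent.W5h9.LF

open Finset Relation Pool.Agent.TH362 Pool.Agent.TH362.TF Pool.Agent.TH362.TF.Four Pool.Agent.R890.FF
open Pool.Agent.R140.PK (Mc St ConnS FC comp mem_comp comp_symm rtg_symm St.symm St.mono
  connS_of cons_out exists_Mc lor_bit geo)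

variable {V E : Type} [Fintype V] [DecidableEq V] [DecidableEq E]

/-- induced paths of a contraction can be lifted -/
theorem lift_path2 {s t : E → V} {S : Finset E} {π : V → V} (hπ : FC s t S π) {K : ℕ} (hK : 2 ≤ K)
    (q : Fin K → V) (hq : Function.Injective q)
    (hq' : ∀ i j : Fin K, i < j →
      (Nb (fun e => π (s e)) (fun e => π (t e)) S (q i) (q j) ↔ i.val + 1 = j.val)) :
    ∃ p : Fin K → V, Function.Injective p ∧
      (∀ i j : Fin K, i < j → (Nb s t S (p i) (p j) ↔ i.val + 1 = j.val)) ∧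
      ∀ i, ∃ j, π (p i) = q j := by
  classical
  set U : V → Prop := fun x => ∃ i, π x = q i with hU
  let Γ : SimpleGraph V :=
    { Adj := fun u w => Nb s t S u w ∧ U u ∧ U w
      symm := ⟨fun u w h => ⟨nb_comm h.1, h.2.2, h.2.1⟩⟩
      loopless := ⟨fun u h => h.1.1 rfl⟩ }
  have hreach : ∀ (P : V → Prop), (∀ x, P x → U x) → ∀ u w, ReflTransGen (St s t S P) u w →
      Γ.Reachable u w := by
    intro P hP u w huw
    induction huw with
    | refl => exact SimpleGraph.Reachable.refl _
    | tail hab0 h2 ih =>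
      rename_i a b
      obtain ⟨h3, h4, h5⟩ := h2
      by_cases hab : b = a
      · rw [hab]; exact ih
      · have : Γ.Adj a b := ⟨⟨hab, h3⟩, hP _ h4, hP _ h5⟩
        exact ih.trans this.reachable
  have hedge : ∀ i : ℕ, ∀ hi : i + 1 < K, ∃ a b, π a = q ⟨i, by omega⟩ ∧ π b = q ⟨i + 1, hi⟩ ∧
      Γ.Adj a b := by
    intro i hi
    have h1 := (hq' ⟨i, by omega⟩ ⟨i + 1, hi⟩ (by simp)).2 rfl
    obtain ⟨hne, e, he, hE⟩ := h1
    rcases hE with ⟨h4, h5⟩ | ⟨h4, h5⟩
    · refine ⟨s e, t e, h4, h5, ⟨?_, e, he, Or.inl ⟨rfl, rfl⟩⟩, ⟨_, h4⟩, ⟨_, h5⟩⟩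
      intro h6
      exact hne (by rw [← h4, ← h5]; exact congrArg π h6)
    · refine ⟨t e, s e, h5, h4, ⟨?_, e, he, Or.inr ⟨rfl, rfl⟩⟩, ⟨_, h5⟩, ⟨_, h4⟩⟩
      intro h6
      exact hne (by rw [← h4, ← h5]; exact congrArg π h6)
  have hall : ∀ i : ℕ, ∀ hi : i < K, ∀ u w, π u = q ⟨0, by omega⟩ → π w = q ⟨i, hi⟩ →
      Γ.Reachable u w := by
    intro i
    induction i with
    | zero =>
      intro hi u w hu hw
      exact hreach _ (fun x hx => ⟨_, hx.trans hu⟩) u w (hπ u w (hu.trans hw.symm))
    | succ i ih =>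
      intro hi u w hu hw
      obtain ⟨a, b, ha, hb, hab⟩ := hedge i hi
      refine ((ih (by omega) u a hu ha).trans hab.reachable).trans ?_
      exact hreach _ (fun x hx => ⟨_, hx.trans hb⟩) b w (hπ b w (hb.trans hw.symm))
  have hlayer : ∀ u w (p : Γ.Walk u w) (i j : Fin K), π u = q i → π w = q j →
      j.val ≤ i.val + p.length := by
    intro u w p
    induction p with
    | nil =>
      intro i j hi hj
      have : i = j := hq (hi.symm.trans hj)
      subst this
      simp
    | cons hadj p ih =>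
      rename_i a b c
      intro i j hi hj
      obtain ⟨h1, h2, k, hk⟩ := hadj
      have h3 := ih k j hk hj
      have h4 : k.val ≤ i.val + 1 := by
        rcases lt_trichotomy i k with h5 | h5 | h5
        · have h6 : Nb (fun e => π (s e)) (fun e => π (t e)) S (q i) (q k) := by
            obtain ⟨hne, e, he, hE⟩ := h1
            refine ⟨fun h => absurd (hq h) (ne_of_gt h5), e, he, ?_⟩
            rcases hE with ⟨h4, h5⟩ | ⟨h4, h5⟩
            · exact Or.inl ⟨by rw [← hi]; exact congrArg π h4, by rw [← hk]; exact congrArg π h5⟩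
            · exact Or.inr ⟨by rw [← hk]; exact congrArg π h4, by rw [← hi]; exact congrArg π h5⟩
          have := (hq' i k h5).1 h6
          omega
        · subst h5; omega
        · have : k.val < i.val := h5
          omega
      rw [SimpleGraph.Walk.length_cons]
      omega
  obtain ⟨x0, _, hx0, _, hadj0⟩ := hedge 0 (by omega)
  obtain ⟨_, x1, _, hx1, _⟩ := hedge (K - 2) (by omega)
  have hx1' : π x1 = q ⟨K - 1, by omega⟩ := by
    rw [hx1]
    congr 1
    apply Fin.ext
    show K - 2 + 1 = K - 1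
    omega
  obtain ⟨w, hw⟩ := (hall (K - 1) (by omega) x0 x1 hx0 hx1').exists_walk_length_eq_dist
  have hlen := hlayer x0 x1 w ⟨0, by omega⟩ ⟨K - 1, by omega⟩ hx0 hx1'
  have hlen' : K - 1 ≤ w.length := by simpa using hlen
  have hg := geo w hw
  have hUw : ∀ i, i ≤ w.length → U (w.getVert i) := by
    intro i hi
    rcases Nat.eq_zero_or_pos i with rfl | hpos
    · rw [SimpleGraph.Walk.getVert_zero]; exact ⟨_, hx0⟩
    · obtain ⟨j, rfl⟩ : ∃ j, i = j + 1 := ⟨i - 1, by omega⟩
      exact (w.adj_getVert_succ (i := j) (by omega)).2.2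
  refine ⟨fun i => w.getVert i.val, ?_, ?_, fun i => hUw i.val (by omega)⟩
  · intro i j hij
    have h1 := hg i.val (by omega)
    have h2 := hg j.val (by omega)
    have h3 : w.getVert i.val = w.getVert j.val := hij
    rw [h3, h2] at h1
    exact Fin.ext h1.symm
  · intro i j hij
    have hi : i.val ≤ w.length := by omega
    have hj : j.val ≤ w.length := by omega
    have hij' : i.val < j.val := hij
    constructor
    · intro h1
      have h2 : Γ.Adj (w.getVert i.val) (w.getVert j.val) := ⟨h1, hUw _ hi, hUw _ hj⟩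
      have h3 := SimpleGraph.dist_le ((w.take i.val).concat h2)
      rw [SimpleGraph.Walk.length_concat, SimpleGraph.Walk.take_length, hg _ hj] at h3
      omega
    · intro h1
      have h2 := (w.adj_getVert_succ (i := i.val) (by omega)).1
      have h3 : w.getVert j.val = w.getVert (i.val + 1) := by rw [h1]
      show Nb s t S (w.getVert i.val) (w.getVert j.val)
      rw [h3]
      exact h2


/-- a vertex of the contraction with a neighbour is the image of a vertex -/
theorem exists_fib {s t : E → V} {S : Finset E} {π : V → V} {x b : V}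
    (h : Nb (fun e => π (s e)) (fun e => π (t e)) S x b) : ∃ y, π y = x := by
  obtain ⟨_, e, _, hE⟩ := h
  rcases hE with ⟨h1, _⟩ | ⟨_, h1⟩
  · exact ⟨s e, h1⟩
  · exact ⟨t e, h1⟩

theorem nb_map {s t : E → V} {S : Finset E} {π : V → V} {x y : V} (h : Nb s t S x y)
    (hxy : π x ≠ π y) : Nb (fun e => π (s e)) (fun e => π (t e)) S (π x) (π y) := by
  obtain ⟨_, e, he, hE⟩ := h
  refine ⟨hxy.symm, e, he, ?_⟩
  rcases hE with ⟨h1, h2⟩ | ⟨h1, h2⟩
  · exact Or.inl ⟨congrArg π h1, congrArg π h2⟩
  · exact Or.inr ⟨congrArg π h1, congrArg π h2⟩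

/-- an induced path together with an isolated vertex can be lifted -/
theorem lift_forest {s t : E → V} {S : Finset E} {π : V → V} (hπ : FC s t S π) {K : ℕ} (hK : 2 ≤ K)
    (q : Fin (K + 1) → V) (hq : Function.Injective q)
    (hnb : ∀ i, ∃ b, Nb (fun e => π (s e)) (fun e => π (t e)) S (q i) b)
    (hq' : ∀ i j : Fin (K + 1), i < j →
      (Nb (fun e => π (s e)) (fun e => π (t e)) S (q i) (q j) ↔
        (i.val + 1 = j.val ∧ j.val < K))) :
    ∃ p : Fin (K + 1) → V, Function.Injective p ∧
      (∀ i j : Fin (K + 1), i < j → (Nb s t S (p i) (p j) ↔ (i.val + 1 = j.val ∧ j.val < K))) := by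
  classical
  obtain ⟨p, hp1, hp2, hp3⟩ := lift_path2 hπ hK (fun i => q i.castSucc)
    (fun i j hij => Fin.castSucc_injective _ (hq hij)) (by
      intro i j hij
      rw [hq' _ _ (by simpa using hij)]
      simp)
  obtain ⟨b, hb⟩ := hnb (Fin.last K)
  obtain ⟨x, hx⟩ := exists_fib hb
  have hne : ∀ i, p i ≠ x ∧ π (p i) ≠ π x := by
    intro i
    obtain ⟨j, hj⟩ := hp3 i
    have h1 : π (p i) ≠ π x := by
      rw [hj, hx]
      intro h2
      have := hq h2
      exact absurd this (Fin.castSucc_lt_last j).ne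
    exact ⟨fun h2 => h1 (by rw [h2]), h1⟩
  refine ⟨Fin.snoc p x, ?_, ?_⟩
  · intro i j hij
    induction i using Fin.lastCases with
    | last =>
      induction j using Fin.lastCases with
      | last => rfl
      | cast j =>
        rw [Fin.snoc_last, Fin.snoc_castSucc] at hij
        exact absurd hij.symm (hne j).1
    | cast i =>
      induction j using Fin.lastCases with
      | last =>
        rw [Fin.snoc_last, Fin.snoc_castSucc] at hij
        exact absurd hij (hne i).1
      | cast j =>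
        rw [Fin.snoc_castSucc, Fin.snoc_castSucc] at hij
        rw [hp1 hij]
  · intro i j hij
    induction j using Fin.lastCases with
    | last =>
      induction i using Fin.lastCases with
      | last => exact absurd hij (lt_irrefl _)
      | cast i =>
        rw [Fin.snoc_last, Fin.snoc_castSucc]
        constructor
        · intro h
          exfalso
          obtain ⟨k, hk⟩ := hp3 i
          have h1 := nb_map (π := π) h (hne i).2
          rw [hk, hx] at h1
          have h2 := (hq' _ _ (Fin.castSucc_lt_last k)).1 h1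
          have h3 := h2.2
          simp at h3
        · rintro ⟨_, h⟩
          simp at h
    | cast j =>
      induction i using Fin.lastCases with
      | last =>
        exfalso
        have h1 := Fin.castSucc_lt_last j
        exact absurd hij (not_lt.2 h1.le)
      | cast i =>
        rw [Fin.snoc_castSucc, Fin.snoc_castSucc, hp2 i j (by simpa using hij)]
        simp

/-- the fibres of connected sets are connected -/
theorem conn_fib {s t : E → V} {S : Finset E} {π : V → V} (hπ : FC s t S π) {B : Set V}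
    {u v : V} (huv : ReflTransGen (fun u v => u ∈ B ∧ v ∈ B ∧
      Nb (fun e => π (s e)) (fun e => π (t e)) S u v) u v) (hu : u ∈ B) :
    ∀ x y, π x = u → π y = v →
      ReflTransGen (St s t S (fun z => π z ∈ B)) x y := by
  have h0 : ∀ x y, π x ∈ B → π x = π y →
      ReflTransGen (St s t S (fun z => π z ∈ B)) x y := by
    intro x y hx hxy
    refine St.mono ?_ (hπ x y hxy)
    intro z hz
    rw [hz]; exact hx
  induction huv with
  | refl => intro x y hx hy; exact h0 x y (by rw [hx]; exact hu) (hx.trans hy.symm)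
  | tail h1 h2 ih =>
    rename_i a b
    intro x y hx hy
    obtain ⟨ha, hb, _, e, he, hE⟩ := h2
    rcases hE with ⟨h3, h4⟩ | ⟨h3, h4⟩
    · have h3' : π (s e) = a := h3
      have h4' : π (t e) = b := h4
      refine ((ih x (s e) hx h3').tail ⟨⟨e, he, Or.inl ⟨rfl, rfl⟩⟩, ?_, ?_⟩).trans
        (h0 (t e) y ?_ (h4'.trans hy.symm))
      · show π (s e) ∈ B; rw [h3']; exact ha
      · show π (t e) ∈ B; rw [h4']; exact hb
      · rw [h4']; exact hb
    · have h3' : π (s e) = b := h3
      have h4' : π (t e) = a := h4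
      refine ((ih x (t e) hx h4').tail ⟨⟨e, he, Or.inr ⟨rfl, rfl⟩⟩, ?_, ?_⟩).trans
        (h0 (s e) y ?_ (h3'.trans hy.symm))
      · show π (t e) ∈ B; rw [h4']; exact ha
      · show π (s e) ∈ B; rw [h3']; exact hb
      · rw [h3']; exact hb

/-- The multigraph has a Petersen graph minor: there are ten disjoint connected vertex sets, indexed
by the pairs of elements of `Fin 5`, such that two sets whose pairs are disjoint are joined by an
edge. -/
def HasPetersenMinor {V E : Type} (s t : E → V) : Prop :=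
  ∃ B : {p : Finset (Fin 5) // p.card = 2} → Set V,
    (∀ i, Multi.ConnectedSet s t (B i)) ∧
    (∀ i j, i ≠ j → Disjoint (B i) (B j)) ∧
    ∀ i j, Disjoint i.1 j.1 → ∃ e, (s e ∈ B i ∧ t e ∈ B j) ∨ (s e ∈ B j ∧ t e ∈ B i)

theorem padj_PE : ∀ k l : Fin 10, padj k l = true →
    (k.val, l.val) ∈ PE ∨ (l.val, k.val) ∈ PE := by decide

theorem PE_cov : ∀ k : Fin 10, ∃ e ∈ PE, e.1 = k.val ∨ e.2 = k.val := by decide

theorem lift_minor [Fintype E] {s t : E → V} {π : V → V} (hπ : FC s t univ π) (B : Nat → Set V)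
    (hd : ∀ c c', c ≠ c' → Disjoint (B c) (B c'))
    (hnb : ∀ c, ∀ x ∈ B c, ∃ b, Nb (fun e => π (s e)) (fun e => π (t e)) univ x b)
    (hc : ∀ c, ∀ x ∈ B c, ∀ y ∈ B c, ReflTransGen (fun u v => u ∈ B c ∧ v ∈ B c ∧
      Nb (fun e => π (s e)) (fun e => π (t e)) univ u v) x y)
    (hPE : ∀ e ∈ PE, ∃ x ∈ B e.1, ∃ y ∈ B e.2,
      Nb (fun e => π (s e)) (fun e => π (t e)) univ x y) : HasPetersenMinor s t := by
  classical
  have hlab : ∀ i : {p : Finset (Fin 5) // p.card = 2}, ∃ k, Contr.pr k = i.1 :=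
    fun i => Contr.pr_surj i.1 i.2
  choose lab hl using hlab
  have hedge : ∀ k l : Nat, (∃ x ∈ B k, ∃ y ∈ B l,
      Nb (fun e => π (s e)) (fun e => π (t e)) univ x y) →
      ∃ e, (π (s e) ∈ B k ∧ π (t e) ∈ B l) ∨ (π (s e) ∈ B l ∧ π (t e) ∈ B k) := by
    rintro k l ⟨x, hx, y, hy, _, e, _, hE⟩
    refine ⟨e, ?_⟩
    rcases hE with ⟨h1, h2⟩ | ⟨h1, h2⟩
    · have h1' : π (s e) = x := h1
      have h2' : π (t e) = y := h2
      left; rw [h1', h2']; exact ⟨hx, hy⟩
    · have h1' : π (s e) = y := h1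
      have h2' : π (t e) = x := h2
      right; rw [h1', h2']; exact ⟨hy, hx⟩
  refine ⟨fun i => {v | π v ∈ B (lab i).val}, ?_, ?_, ?_⟩
  · intro i
    constructor
    · obtain ⟨e, he, h1⟩ := PE_cov (lab i)
      obtain ⟨x, hx, y, hy, _⟩ := hPE e he
      rcases h1 with h1 | h1
      · obtain ⟨b, hb⟩ := hnb _ x hx
        obtain ⟨z, hz⟩ := exists_fib hb
        exact ⟨z, by show π z ∈ B (lab i).val; rw [hz, ← h1]; exact hx⟩
      · obtain ⟨b, hb⟩ := hnb _ y hy
        obtain ⟨z, hz⟩ := exists_fib hb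
        exact ⟨z, by show π z ∈ B (lab i).val; rw [hz, ← h1]; exact hy⟩
    · intro u hu v hv
      have h1 := conn_fib hπ (hc _ (π u) hu (π v) hv) hu u v rfl rfl
      unfold Multi.Linked
      clear hv
      induction h1 with
      | refl => exact ReflTransGen.refl
      | tail _ h2 ih =>
        refine ih.tail ?_
        obtain ⟨⟨e, _, hE⟩, h3, h4⟩ := h2
        rcases hE with ⟨h5, h6⟩ | ⟨h5, h6⟩
        · exact ⟨e, ⟨by rw [h5]; exact h3, by rw [h6]; exact h4⟩, Or.inl ⟨h5, h6⟩⟩
        · exact ⟨e, ⟨by rw [h5]; exact h4, by rw [h6]; exact h3⟩, Or.inr ⟨h5, h6⟩⟩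
  · intro i j hij
    have h1 : lab i ≠ lab j := by
      intro h1
      apply hij
      apply Subtype.ext
      rw [← hl i, ← hl j, h1]
    have h2 := hd (lab i).val (lab j).val (fun h => h1 (Fin.ext h))
    rw [Set.disjoint_left] at h2 ⊢
    intro v hv hv'
    exact h2 hv hv'
  · intro i j hij
    have h1 : padj (lab i) (lab j) = true := by
      rw [Contr.pr_padj, hl, hl]; exact hij
    rcases padj_PE _ _ h1 with h2 | h2
    · obtain ⟨e, he⟩ := hedge _ _ (hPE _ h2)
      exact ⟨e, he⟩
    · obtain ⟨e, he⟩ := hedge _ _ (hPE _ h2)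
      exact ⟨e, he.symm⟩

end Pool.Agent.W5h9.LF
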