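import Pool.Agent.R140.PK.Check
import Pool.Agent.W5h9.LF.Defs

set_option autoImplicit false
set_option linter.unusedVariables false

/-!
# The checks of induced linear forests and of induced subgraphs
-/

namespace Pool.Agent.W5h9.LF

open Pool.Agent.R140.PK (dg dg_zero dg_succ lor_bit land_bit shl_bit bit_bit)

theorem one_bit (y x : Nat) : (Nat.shiftLeft (nat_lit 1) y).testBit x = decide (y = x) := bit_bit y x

theorem shr_bit (a k x : Nat) : (Nat.shiftRight a k).testBit x = a.testBit (k + x) :=
  Nat.testBit_shiftRight a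

theorem mod32_bit (a x : Nat) :
    (Nat.mod a (nat_lit 4294967296)).testBit x = (decide (x < 32) && a.testBit x) :=
  Nat.testBit_mod_two_pow a 32 x

theorem modp_bit (a m x : Nat) :
    (Nat.mod a (Nat.shiftLeft (nat_lit 1) m)).testBit x = (decide (x < m) && a.testBit x) := by
  have h : Nat.mod a (Nat.shiftLeft 1 m) = a % 2 ^ m := by
    have : Nat.shiftLeft 1 m = 1 <<< m := rfl
    rw [this, Nat.one_shiftLeft]; rfl
  rw [h]
  exact Nat.testBit_mod_two_pow a m x

theorem brN {α : Type} {t : Option α} {b : Bool} {x : α}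
    (h : @Bool.rec (fun _ => Option α) none t b = some x) : b = true ∧ t = some x := by
  cases b
  · exact absurd h (by simp)
  · exact ⟨rfl, h⟩

theorem brS {α : Type} {f t : Option α} {b : Bool} {x : α}
    (h : @Bool.rec (fun _ => Option α) f t b = some x) :
    (b = true ∧ t = some x) ∨ (b = false ∧ f = some x) := by
  cases b
  · exact Or.inr ⟨rfl, h⟩
  · exact Or.inl ⟨rfl, h⟩

theorem brT {t b : Bool} (h : @Bool.rec (fun _ => Bool) false t b = true) :
    b = true ∧ t = true := by
  cases b
  · exact absurd h (by simp)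
  · exact ⟨rfl, h⟩

theorem brF {f b : Bool} (h : @Bool.rec (fun _ => Bool) f false b = true) :
    b = false ∧ f = true := by
  cases b
  · exact ⟨rfl, h⟩
  · exact absurd h (by simp)

/-- a vertex is not in the set if its addition changes it -/
theorem not_mem_of_lor {seen d : Nat}
    (h : Nat.beq (Nat.lor seen (Nat.shiftLeft (nat_lit 1) d)) seen = false) :
    seen.testBit d = false := by
  by_contra hcon
  rw [Bool.not_eq_false] at hcon
  have : Nat.lor seen (Nat.shiftLeft (nat_lit 1) d) = seen := by
    refine Nat.eq_of_testBit_eq fun i => ?_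
    rw [lor_bit, one_bit]
    by_cases h1 : d = i
    · subst h1; simp [hcon]
    · simp [h1]
  rw [this, Nat.beq_refl] at h
  simp at h

theorem isJ_spec (A M : Nat) : ∀ (L : List Bool) (p seen prev : Nat) (P Q : Nat → Prop),
    (∀ z, seen.testBit z = true ↔ P z) → (∀ z, prev.testBit z = true ↔ Q z) →
    isJ A M L p seen prev = true →
    (∀ z, P z → M.testBit z = true) ∧ (∀ i, i < L.length → M.testBit (dg p i) = true) ∧
    (∀ i, i < L.length → ∀ z, P z → z ≠ dg p i ∧
      (A.testBit (32 * dg p i + z) = true ↔ (i = 0 ∧ Q z))) ∧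
    (∀ i j, i < j → j < L.length → dg p i ≠ dg p j ∧
      (A.testBit (32 * dg p j + dg p i) = true ↔ (i + 1 = j ∧ L[i]? = some true))) := by
  intro L
  induction L with
  | nil =>
    intro p seen prev P Q hP hQ h
    have h1 : Nat.land seen M = seen := Nat.eq_of_beq_eq_true h
    refine ⟨fun z hz => ?_, fun i hi => absurd hi (by simp), fun i hi => absurd hi (by simp),
      fun i j _ hj => absurd hj (by simp)⟩
    have h2 := (hP z).2 hz
    rw [← h1, land_bit, Bool.and_eq_true] at h2
    exact h2.2
  | cons b L ih =>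
    intro p seen prev P Q hP hQ h
    have h0 : @Bool.rec (fun _ => Bool) false
        (@Bool.rec (fun _ => Bool)
          (isJ A M L (Nat.div p (nat_lit 32))
            (Nat.lor seen (Nat.shiftLeft (nat_lit 1) (Nat.mod p (nat_lit 32))))
            (@Bool.rec (fun _ => Nat) (nat_lit 0)
              (Nat.shiftLeft (nat_lit 1) (Nat.mod p (nat_lit 32))) b))
          false
          (Nat.beq (Nat.lor seen (Nat.shiftLeft (nat_lit 1) (Nat.mod p (nat_lit 32)))) seen))
        (Nat.beq (Nat.land (Nat.shiftRight A (Nat.mul (nat_lit 32) (Nat.mod p (nat_lit 32)))) seen)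
          prev) = true := h
    obtain ⟨h1, h2⟩ := brT h0
    obtain ⟨h3, h4⟩ := brF h2
    have hd : Nat.mod p (nat_lit 32) = dg p 0 := (dg_zero p).symm
    have hm : Nat.mul (nat_lit 32) (Nat.mod p (nat_lit 32)) = 32 * dg p 0 := by rw [hd]; rfl
    have hdiv : Nat.div p (nat_lit 32) = p / 32 := rfl
    rw [hm] at h1
    rw [hd] at h3 h4
    rw [hdiv] at h4
    have h1' := Nat.eq_of_beq_eq_true h1
    have h3' := not_mem_of_lor h3
    have hPd : ¬ P (dg p 0) := by rw [← hP, h3']; simp
    obtain ⟨r1, r2, r3, r4⟩ := ih (p / 32) _ _ (fun z => P z ∨ z = dg p 0)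
      (fun z => b = true ∧ z = dg p 0)
      (fun z => by
        rw [lor_bit, one_bit, Bool.or_eq_true, hP, decide_eq_true_eq, eq_comm (a := z)])
      (fun z => by
        cases b
        · have : (@Bool.rec (fun _ => Nat) (nat_lit 0)
              (Nat.shiftLeft (nat_lit 1) (dg p 0)) false) = 0 := rfl
          rw [this, Nat.zero_testBit]; simp
        · have : (@Bool.rec (fun _ => Nat) (nat_lit 0)
              (Nat.shiftLeft (nat_lit 1) (dg p 0)) true) = Nat.shiftLeft (nat_lit 1) (dg p 0) := rfl
          rw [this, one_bit, decide_eq_true_eq, eq_comm (a := z)]; simp) h4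
    have key : ∀ z, P z → (A.testBit (32 * dg p 0 + z) = true ↔ Q z) := by
      intro z hz
      have h5 : (Nat.land (Nat.shiftRight A (32 * dg p 0)) seen).testBit z = prev.testBit z := by
        rw [h1']
      rw [land_bit, shr_bit, (hP z).2 hz, Bool.and_true] at h5
      rw [h5, hQ]
    refine ⟨fun z hz => r1 z (Or.inl hz), ?_, ?_, ?_⟩
    · intro i hi
      cases i with
      | zero => exact r1 _ (Or.inr rfl)
      | succ i => rw [dg_succ]; exact r2 i (by simpa using hi)
    · intro i hi z hz
      cases i with
      | zero =>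
        refine ⟨fun h => hPd (h ▸ hz), ?_⟩
        rw [key z hz]
        simp
      | succ i =>
        rw [dg_succ]
        obtain ⟨a1, a2⟩ := r3 i (by simpa using hi) z (Or.inl hz)
        refine ⟨a1, a2.trans ?_⟩
        constructor
        · rintro ⟨_, _, rfl⟩; exact absurd hz hPd
        · rintro ⟨h, _⟩; omega
    · intro i j hij hj
      obtain ⟨j', rfl⟩ : ∃ j', j = j' + 1 := ⟨j - 1, by omega⟩
      have hj' : j' < L.length := by simpa using hj
      cases i with
      | zero =>
        rw [dg_succ]
        obtain ⟨a1, a2⟩ := r3 j' hj' (dg p 0) (Or.inr rfl)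
        refine ⟨a1, a2.trans ?_⟩
        simp only [List.getElem?_cons_zero, Option.some.injEq]
        constructor
        · rintro ⟨h, h', _⟩; exact ⟨by omega, h'⟩
        · rintro ⟨h, h'⟩; exact ⟨by omega, h', trivial⟩
      | succ i =>
        rw [dg_succ, dg_succ]
        obtain ⟨a1, a2⟩ := r4 i j' (by omega) hj'
        refine ⟨a1, a2.trans ?_⟩
        rw [List.getElem?_cons_succ]
        constructor
        · rintro ⟨h, h'⟩; exact ⟨by omega, h'⟩
        · rintro ⟨h, h'⟩; exact ⟨by omega, h'⟩

theorem dg_shift (σ i : Nat) :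
    Nat.mod (Nat.shiftRight σ (Nat.mul (nat_lit 5) i)) (nat_lit 32) = dg σ i := by
  have h : Nat.mod (Nat.shiftRight σ (Nat.mul (nat_lit 5) i)) (nat_lit 32) =
    (σ >>> (5 * i)) % 32 := rfl
  rw [h, Nat.shiftRight_eq_div_pow, pow_mul]
  rfl

theorem pat_spec (A M X k σ : Nat) : ∀ (f i r sg a b seen out : Nat),
    sg = σ / 32 ^ i →
    (∀ z, seen.testBit z = true ↔ ∃ j, j < i ∧ z = dg σ j) →
    (∀ z, b.testBit z = true ↔ ∃ j, a.testBit j = true ∧ z = dg σ j) →
    (∀ j j', j < i → j' < i → dg σ j = dg σ j' → j = j') →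
    i < k → pat A M X k σ f i r sg a b seen = some out →
    (∀ j, j < k → M.testBit (dg σ j) = true) ∧
    (∀ j j', j < j' → j' < k → i ≤ j' → dg σ j ≠ dg σ j' ∧
      (A.testBit (32 * dg σ j' + dg σ j) = true ↔ X.testBit (32 * j' + j) = true)) := by
  intro f
  induction f with
  | zero =>
    intro i r sg a b seen out _ _ _ _ _ h
    exact absurd h (by simp [pat])
  | succ f ih =>
    intro i r sg a b seen out hsg hseen hab hinj hik h
    have h0 : @Bool.rec (fun _ => Option Nat)
        (pat A M X k σ f i (Nat.div r (nat_lit 32)) sg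
          (Nat.lor a (Nat.shiftLeft (nat_lit 1) (Nat.mod r (nat_lit 32))))
          (Nat.lor b (Nat.shiftLeft (nat_lit 1)
            (Nat.mod (Nat.shiftRight σ (Nat.mul (nat_lit 5) (Nat.mod r (nat_lit 32)))) (nat_lit 32))))
          seen)
        (@Bool.rec (fun _ => Option Nat) none
          (@Bool.rec (fun _ => Option Nat) none
            (@Bool.rec (fun _ => Option Nat)
              (@Bool.rec (fun _ => Option Nat)
                (pat A M X k σ f (Nat.succ i) (Nat.div r (nat_lit 32)) (Nat.div sg (nat_lit 32))
                  (nat_lit 0) (nat_lit 0)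
                  (Nat.lor seen (Nat.shiftLeft (nat_lit 1) (Nat.mod sg (nat_lit 32)))))
                (@Bool.rec (fun _ => Option Nat) none (some (Nat.div r (nat_lit 32)))
                  (Nat.beq (Nat.land
                    (Nat.lor seen (Nat.shiftLeft (nat_lit 1) (Nat.mod sg (nat_lit 32)))) M)
                    (Nat.lor seen (Nat.shiftLeft (nat_lit 1) (Nat.mod sg (nat_lit 32))))))
                (Nat.beq (Nat.succ i) k))
              none
              (Nat.beq (Nat.lor seen (Nat.shiftLeft (nat_lit 1) (Nat.mod sg (nat_lit 32)))) seen))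
            (Nat.beq (Nat.mod (Nat.shiftRight X (Nat.mul (nat_lit 32) i))
              (Nat.shiftLeft (nat_lit 1) i)) a))
          (Nat.beq (Nat.land
            (Nat.shiftRight A (Nat.mul (nat_lit 32) (Nat.mod sg (nat_lit 32)))) seen) b))
        (Nat.beq (Nat.mod r (nat_lit 32)) (nat_lit 31)) = some out := h
    rcases brS h0 with ⟨-, h1⟩ | ⟨-, h1⟩
    swap
    · refine ih i _ sg _ _ seen out hsg hseen ?_ hinj hik h1
      intro z
      rw [dg_shift, lor_bit, one_bit, Bool.or_eq_true, decide_eq_true_eq, hab]
      constructor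
      · rintro (⟨j, h2, h3⟩ | h2)
        · exact ⟨j, by rw [lor_bit, h2]; rfl, h3⟩
        · exact ⟨_, by rw [lor_bit, one_bit]; simp, h2.symm⟩
      · rintro ⟨j, h2, h3⟩
        rw [lor_bit, one_bit, Bool.or_eq_true, decide_eq_true_eq] at h2
        rcases h2 with h2 | h2
        · exact Or.inl ⟨j, h2, h3⟩
        · exact Or.inr (by rw [h3, ← h2])
    · obtain ⟨h2, h3⟩ := brN h1
      obtain ⟨h4, h5⟩ := brN h3
      have hd : Nat.mod sg (nat_lit 32) = dg σ i := by rw [hsg]; rfl
      have hmul : Nat.mul (nat_lit 32) (Nat.mod sg (nat_lit 32)) = 32 * dg σ i := by rw [hd]; rfl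
      rw [hmul] at h2
      have h2' := Nat.eq_of_beq_eq_true h2
      have h4' := Nat.eq_of_beq_eq_true h4
      rw [hd] at h5
      have h67 : Nat.beq (Nat.lor seen (Nat.shiftLeft (nat_lit 1) (dg σ i))) seen = false ∧
          @Bool.rec (fun _ => Option Nat)
                (pat A M X k σ f (Nat.succ i) (Nat.div r (nat_lit 32)) (Nat.div sg (nat_lit 32))
                  (nat_lit 0) (nat_lit 0)
                  (Nat.lor seen (Nat.shiftLeft (nat_lit 1) (dg σ i))))
                (@Bool.rec (fun _ => Option Nat) none (some (Nat.div r (nat_lit 32)))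
                  (Nat.beq (Nat.land
                    (Nat.lor seen (Nat.shiftLeft (nat_lit 1) (dg σ i))) M)
                    (Nat.lor seen (Nat.shiftLeft (nat_lit 1) (dg σ i)))))
                (Nat.beq (Nat.succ i) k) = some out := by
        rcases brS h5 with ⟨_, h⟩ | ⟨h, h'⟩
        · exact absurd h (by simp)
        · exact ⟨h, h'⟩
      obtain ⟨h6, h7⟩ := h67
      have h6' := not_mem_of_lor h6
      have hnew : ∀ j, j < i → dg σ j ≠ dg σ i := by
        intro j hj hjj
        have : seen.testBit (dg σ i) = true := (hseen _).2 ⟨j, hj, hjj.symm⟩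
        rw [h6'] at this
        simp at this
      have haX : ∀ j, a.testBit j = true ↔ (j < i ∧ X.testBit (32 * i + j) = true) := by
        intro j
        rw [← h4', modp_bit, shr_bit, Bool.and_eq_true, decide_eq_true_eq]
        rfl
      have hadj : ∀ j, j < i → (A.testBit (32 * dg σ i + dg σ j) = true ↔
          X.testBit (32 * i + j) = true) := by
        intro j hj
        have h8 : (Nat.land (Nat.shiftRight A (32 * dg σ i)) seen).testBit (dg σ j) =
            b.testBit (dg σ j) := by rw [h2']
        rw [land_bit, shr_bit, (hseen _).2 ⟨j, hj, rfl⟩, Bool.and_true] at h8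
        rw [h8, hab]
        constructor
        · rintro ⟨j', h9, h10⟩
          obtain ⟨h11, h12⟩ := (haX j').1 h9
          have := hinj j j' hj h11 h10
          subst this
          exact h12
        · intro h9
          exact ⟨j, (haX j).2 ⟨hj, h9⟩, rfl⟩
      have hseen' : ∀ z, (Nat.lor seen (Nat.shiftLeft (nat_lit 1) (dg σ i))).testBit z = true ↔
          ∃ j, j < i + 1 ∧ z = dg σ j := by
        intro z
        rw [lor_bit, one_bit, Bool.or_eq_true, decide_eq_true_eq, hseen]
        constructor
        · rintro (⟨j, h8, h9⟩ | h8)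
          · exact ⟨j, by omega, h9⟩
          · exact ⟨i, by omega, h8.symm⟩
        · rintro ⟨j, h8, h9⟩
          rcases Nat.lt_or_ge j i with h10 | h10
          · exact Or.inl ⟨j, h10, h9⟩
          · have : j = i := by omega
            exact Or.inr (by rw [h9, this])
      have hinj' : ∀ j j', j < i + 1 → j' < i + 1 → dg σ j = dg σ j' → j = j' := by
        intro j j' hj hj' hjj
        rcases Nat.lt_or_ge j i with h8 | h8 <;> rcases Nat.lt_or_ge j' i with h9 | h9
        · exact hinj j j' h8 h9 hjj
        · have : j' = i := by omega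
          subst this
          exact absurd hjj (hnew j h8)
        · have : j = i := by omega
          subst this
          exact absurd hjj.symm (hnew j' h9)
        · omega
      have hcur : ∀ j, j < i → dg σ j ≠ dg σ i ∧
          (A.testBit (32 * dg σ i + dg σ j) = true ↔ X.testBit (32 * i + j) = true) :=
        fun j hj => ⟨hnew j hj, hadj j hj⟩
      rcases brS h7 with ⟨h8, h9⟩ | ⟨h8, h9⟩
      · have h8' : i + 1 = k := Nat.eq_of_beq_eq_true h8
        obtain ⟨h10, -⟩ := brN h9
        have h10' := Nat.eq_of_beq_eq_true h10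
        refine ⟨?_, ?_⟩
        · intro j hj
          have h11 := (hseen' (dg σ j)).2 ⟨j, by omega, rfl⟩
          rw [← h10', land_bit, Bool.and_eq_true] at h11
          exact h11.2
        · intro j j' h11 h12 h13
          have : j' = i := by omega
          subst this
          exact hcur j h11
      · have h8' : i + 1 ≠ k := by
          intro hh
          rw [← hh, Nat.beq_refl] at h8
          simp at h8
        have hsg' : Nat.div sg (nat_lit 32) = σ / 32 ^ (i + 1) := by
          rw [hsg]
          have : Nat.div (σ / 32 ^ i) (nat_lit 32) = σ / 32 ^ i / 32 := rfl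
          rw [this, Nat.div_div_eq_div_mul, pow_succ]
        obtain ⟨r1, r2⟩ := ih (i + 1) _ _ _ _ _ out hsg' hseen' (by
          intro z
          rw [Nat.zero_testBit]
          simp) hinj' (by omega) h9
        refine ⟨r1, ?_⟩
        intro j j' h11 h12 h13
        rcases Nat.lt_or_ge i j' with h14 | h14
        · exact r2 j j' h11 h12 (by omega)
        · have : j' = i := by omega
          subst this
          exact hcur j h11

theorem getk_spec (Γ : List (Nat × Nat)) (K : Nat → Nat → Option Nat) (out : Nat) :
    ∀ i, getk Γ i K = some out → ∃ g ∈ Γ, K g.1 g.2 = some out := by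
  induction Γ with
  | nil => intro i h; exact absurd h (by simp [getk])
  | cons g Γ ih =>
    intro i h
    have h0 : @Bool.rec (fun _ => Option Nat) (getk Γ (Nat.pred i) K) (K g.1 g.2)
      (Nat.beq i (nat_lit 0)) = some out := h
    rcases brS h0 with ⟨-, h1⟩ | ⟨-, h1⟩
    · exact ⟨g, List.mem_cons_self, h1⟩
    · obtain ⟨g', h2, h3⟩ := ih _ h1
      exact ⟨g', List.mem_cons_of_mem _ h2, h3⟩

end Pool.Agent.W5h9.LF
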