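import Mathlib.Logic.Relation
import Mathlib.Tactic.Ring
import Mathlib.Data.Set.Basic
import Mathlib.Data.Nat.Bitwise
import Pool.Agent.W5h9.LF.Pat

set_option autoImplicit false
set_option linter.unusedVariables false

/-!
# The checks of Petersen minors, and the extension of the matrices
-/

namespace Pool.Agent.W5h9.LF

open Relation
open Pool.Agent.R140.PK (dg dg_zero dg_succ lor_bit land_bit shl_bit bit_bit ne_zero_testBit)

theorem pmc_spec (C Nb : Nat) (P : List (Nat × Nat)) (h : pmc C Nb P = true) :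
    ∀ e ∈ P, ∃ x, x < 32 ∧ Nb.testBit (32 * e.1 + x) = true ∧ C.testBit (32 * e.2 + x) = true := by
  induction P with
  | nil => intro e he; exact absurd he (by simp)
  | cons g P ih =>
    have h0 : @Bool.rec (fun _ => Bool) (pmc C Nb P) false
        (Nat.beq
          (Nat.mod (Nat.land (Nat.shiftRight Nb (Nat.mul (nat_lit 32) g.1))
            (Nat.shiftRight C (Nat.mul (nat_lit 32) g.2))) (nat_lit 4294967296)) (nat_lit 0)) =
        true := h
    obtain ⟨h1, h2⟩ := brF h0
    intro e he
    rcases List.mem_cons.1 he with rfl | he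
    · have h3 : Nat.mod (Nat.land (Nat.shiftRight Nb (Nat.mul (nat_lit 32) e.1))
          (Nat.shiftRight C (Nat.mul (nat_lit 32) e.2))) (nat_lit 4294967296) ≠ 0 := by
        intro h3
        rw [h3] at h1
        exact absurd h1 (by decide)
      obtain ⟨x, hx⟩ := ne_zero_testBit h3
      rw [mod32_bit, land_bit, shr_bit, shr_bit, Bool.and_eq_true, Bool.and_eq_true,
        decide_eq_true_eq] at hx
      exact ⟨x, hx.1, hx.2.1, hx.2.2⟩
    · exact ih h2 e he

/-- a step in a class -/
def CR (A C c : Nat) (x y : Nat) : Prop :=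
  x < 32 ∧ y < 32 ∧ C.testBit (32 * c + x) = true ∧ C.testBit (32 * c + y) = true ∧
    (A.testBit (32 * x + y) = true ∨ A.testBit (32 * y + x) = true)

structure PInv (A m C Nb seen : Nat) : Prop where
  i1 : ∀ c d, d < 32 → C.testBit (32 * c + d) = true → d ≤ m ∧ seen.testBit d = true
  i2 : ∀ c c' d, d < 32 → C.testBit (32 * c + d) = true → C.testBit (32 * c' + d) = true → c = c'
  i3 : ∀ c x, x < 32 → Nb.testBit (32 * c + x) = true →
    ∃ d, d < 32 ∧ C.testBit (32 * c + d) = true ∧ A.testBit (32 * d + x) = true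
  i4 : ∀ c d d', d < 32 → d' < 32 → C.testBit (32 * c + d) = true →
    C.testBit (32 * c + d') = true → ReflTransGen (CR A C c) d d'

theorem pm_spec (A m : Nat) : ∀ (f s C Nb seen out : Nat), PInv A m C Nb seen →
    pm A m f s C Nb seen = some out →
    ∃ C', (∀ c d, d < 32 → C'.testBit (32 * c + d) = true → d ≤ m) ∧
      (∀ c c' d, d < 32 → C'.testBit (32 * c + d) = true → C'.testBit (32 * c' + d) = true →
        c = c') ∧
      (∀ c d d', d < 32 → d' < 32 → C'.testBit (32 * c + d) = true →
        C'.testBit (32 * c + d') = true → ReflTransGen (CR A C' c) d d') ∧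
      ∀ e ∈ PE, ∃ d x, d < 32 ∧ x < 32 ∧ C'.testBit (32 * e.1 + d) = true ∧
        C'.testBit (32 * e.2 + x) = true ∧ A.testBit (32 * d + x) = true := by
  intro f
  induction f with
  | zero => intro s C Nb seen out _ h; exact absurd h (by simp [pm])
  | succ f ih =>
    intro s C Nb seen out hI h
    obtain ⟨d, hd⟩ : ∃ d, d = Nat.mod s (nat_lit 32) := ⟨_, rfl⟩
    obtain ⟨c, hc⟩ : ∃ c, c = Nat.mod (Nat.shiftRight s (nat_lit 5)) (nat_lit 16) := ⟨_, rfl⟩
    have hd32 : d < 32 := by
      have h : s % 32 < 32 := Nat.mod_lt s (by omega)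
      rw [hd]; exact h
    have h0 : @Bool.rec (fun _ => Option Nat)
        (@Bool.rec (fun _ => Option Nat) none
          (@Bool.rec (fun _ => Option Nat)
            (@Bool.rec (fun _ => Option Nat) none
              (pm A m f (Nat.shiftRight s (nat_lit 9))
                (Nat.lor C (Nat.shiftLeft (nat_lit 1)
                  (Nat.add (Nat.mul (nat_lit 32) c) d)))
                (Nat.lor Nb (Nat.shiftLeft
                  (Nat.mod (Nat.shiftRight A (Nat.mul (nat_lit 32) d)) (nat_lit 4294967296))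
                  (Nat.mul (nat_lit 32) c)))
                (Nat.lor seen (Nat.shiftLeft (nat_lit 1) d)))
              (@Bool.rec (fun _ => Bool)
                (@Bool.rec (fun _ => Bool) true false
                  (Nat.beq (Nat.land
                    (Nat.mod (Nat.shiftRight A (Nat.mul (nat_lit 32) d)) (nat_lit 4294967296))
                    (Nat.shiftRight C (Nat.mul (nat_lit 32) c))) (nat_lit 0)))
                true
                (Nat.beq (Nat.mod (Nat.shiftRight C (Nat.mul (nat_lit 32) c))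
                  (nat_lit 4294967296)) (nat_lit 0))))
            none
            (Nat.beq (Nat.lor seen (Nat.shiftLeft (nat_lit 1) d)) seen))
          (Nat.ble d m))
        (@Bool.rec (fun _ => Option Nat) none (some (Nat.shiftRight s (nat_lit 5))) (pmc C Nb PE))
        (Nat.beq d (nat_lit 31)) = some out := by rw [hd, hc]; exact h
    rcases brS h0 with ⟨-, h1⟩ | ⟨-, h1⟩
    · obtain ⟨h2, -⟩ := brN h1
      refine ⟨C, fun c d h3 h4 => (hI.i1 c d h3 h4).1, hI.i2, hI.i4, ?_⟩
      intro e he
      obtain ⟨x, h3, h4, h5⟩ := pmc_spec C Nb PE h2 e he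
      obtain ⟨d, h6, h7, h8⟩ := hI.i3 _ x h3 h4
      exact ⟨d, x, h6, h3, h7, h5, h8⟩
    · obtain ⟨h2, h3⟩ := brN h1
      have hdm : d ≤ m := Nat.le_of_ble_eq_true h2
      rcases brS h3 with ⟨_, h4⟩ | ⟨h4, h5⟩
      · exact absurd h4 (by simp)
      have hns := not_mem_of_lor h4
      obtain ⟨h6, h7⟩ := brN h5
      have hmul : ∀ a, Nat.mul (nat_lit 32) a = 32 * a := fun _ => rfl
      rw [hmul, hmul] at h6 h7
      have hadd : Nat.add (32 * c) d = 32 * c + d := rfl
      rw [hadd] at h7
      have hC : ∀ c' d', d' < 32 →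
          ((Nat.lor C (Nat.shiftLeft (nat_lit 1) (32 * c + d))).testBit (32 * c' + d') = true ↔
            C.testBit (32 * c' + d') = true ∨ (c' = c ∧ d' = d)) := by
        intro c' d' hd'
        rw [lor_bit, one_bit, Bool.or_eq_true, decide_eq_true_eq]
        constructor
        · rintro (h | h)
          · exact Or.inl h
          · exact Or.inr (by omega)
        · rintro (h | ⟨rfl, rfl⟩)
          · exact Or.inl h
          · exact Or.inr rfl
      have hnone : ∀ c', C.testBit (32 * c' + d) ≠ true := by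
        intro c' h8
        have := (hI.i1 c' d hd32 h8).2
        rw [hns] at this
        simp at this
      have hmono : ∀ c' x y, CR A C c' x y →
          CR A (Nat.lor C (Nat.shiftLeft (nat_lit 1) (32 * c + d))) c' x y := by
        rintro c' x y ⟨a1, a2, a3, a4, a5⟩
        exact ⟨a1, a2, (hC c' x a1).2 (Or.inl a3), (hC c' y a2).2 (Or.inl a4), a5⟩
      -- the new vertex is adjacent to its class, or the class is empty
      have hcond : (∀ x, x < 32 → C.testBit (32 * c + x) ≠ true) ∨
          ∃ x, x < 32 ∧ C.testBit (32 * c + x) = true ∧ A.testBit (32 * d + x) = true := by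
        rcases hb : Nat.beq (Nat.mod (Nat.shiftRight C (32 * c)) (nat_lit 4294967296)) (nat_lit 0)
          with _ | _
        · rw [hb] at h6
          right
          have h8 : Nat.land
              (Nat.mod (Nat.shiftRight A (32 * d)) (nat_lit 4294967296))
              (Nat.shiftRight C (32 * c)) ≠ 0 := by
            intro h8
            rw [h8] at h6
            exact absurd h6 (by decide)
          obtain ⟨x, hx⟩ := ne_zero_testBit h8
          rw [land_bit, mod32_bit, shr_bit, shr_bit, Bool.and_eq_true, Bool.and_eq_true,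
            decide_eq_true_eq] at hx
          exact ⟨x, hx.1.1, hx.2, hx.1.2⟩
        · left
          intro x hx h8
          have h9 : (Nat.mod (Nat.shiftRight C (32 * c)) (nat_lit 4294967296)).testBit x = true := by
            rw [mod32_bit, shr_bit, h8]
            simp [hx]
          rw [Nat.eq_of_beq_eq_true hb, Nat.zero_testBit] at h9
          simp at h9
      refine ih _ _ _ _ out ⟨?_, ?_, ?_, ?_⟩ h7
      · intro c' d' hd' h8
        rw [hC c' d' hd'] at h8
        rw [lor_bit, one_bit, Bool.or_eq_true, decide_eq_true_eq]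
        rcases h8 with h8 | ⟨_, rfl⟩
        · obtain ⟨h9, h10⟩ := hI.i1 c' d' hd' h8
          exact ⟨h9, Or.inl h10⟩
        · exact ⟨hdm, Or.inr rfl⟩
      · intro c1 c2 d' hd' h8 h9
        rw [hC c1 d' hd'] at h8
        rw [hC c2 d' hd'] at h9
        rcases h8 with h8 | ⟨rfl, rfl⟩ <;> rcases h9 with h9 | ⟨rfl, h10⟩
        · exact hI.i2 c1 c2 d' hd' h8 h9
        · exact absurd (h10 ▸ h8) (hnone c1)
        · exact absurd h9 (hnone c2)
        · rfl
      · intro c' x hx h8
        rw [lor_bit, shl_bit, mod32_bit, shr_bit, Bool.or_eq_true, Bool.and_eq_true,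
          Bool.and_eq_true, decide_eq_true_eq, decide_eq_true_eq] at h8
        rcases h8 with h8 | ⟨h8, h9, h10⟩
        · obtain ⟨d', h11, h12, h13⟩ := hI.i3 c' x hx h8
          exact ⟨d', h11, (hC c' d' h11).2 (Or.inl h12), h13⟩
        · have h11 : c' = c := by omega
          subst h11
          refine ⟨d, hd32, (hC c' d hd32).2 (Or.inr ⟨rfl, rfl⟩), ?_⟩
          have : 32 * c' + x - 32 * c' = x := by omega
          rwa [this] at h10
      · have hback : ∀ x, x < 32 → C.testBit (32 * c + x) = true →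
            ReflTransGen (CR A (Nat.lor C (Nat.shiftLeft (nat_lit 1) (32 * c + d))) c) x d ∧
            ReflTransGen (CR A (Nat.lor C (Nat.shiftLeft (nat_lit 1) (32 * c + d))) c) d x := by
          intro x hx h8
          rcases hcond with h9 | ⟨y, h9, h10, h11⟩
          · exact absurd h8 (h9 x hx)
          · have h12 := ReflTransGen.mono (hmono c) _ _ (hI.i4 c x y hx h9 h8 h10)
            have h13 := ReflTransGen.mono (hmono c) _ _ (hI.i4 c y x h9 hx h10 h8)
            have e1 := (hC c y h9).2 (Or.inl h10)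
            have e2 := (hC c d hd32).2 (Or.inr ⟨rfl, rfl⟩)
            exact ⟨h12.tail ⟨h9, hd32, e1, e2, Or.inr h11⟩,
              (ReflTransGen.single ⟨hd32, h9, e2, e1, Or.inl h11⟩).trans h13⟩
        intro c' d1 d2 h8 h9 h10 h11
        rw [hC c' d1 h8] at h10
        rw [hC c' d2 h9] at h11
        rcases h10 with h10 | ⟨rfl, rfl⟩ <;> rcases h11 with h11 | ⟨h12, rfl⟩
        · exact ReflTransGen.mono (hmono c') _ _ (hI.i4 c' d1 d2 h8 h9 h10 h11)
        · subst h12; exact (hback d1 h8 h10).1
        · exact (hback d2 h9 h11).2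
        · exact ReflTransGen.refl

theorem pinv_zero (A m : Nat) : PInv A m 0 0 0 := by
  refine ⟨?_, ?_, ?_, ?_⟩
  · intro c d _ h; rw [Nat.zero_testBit] at h; simp at h
  · intro c c' d _ h; rw [Nat.zero_testBit] at h; simp at h
  · intro c x _ h; rw [Nat.zero_testBit] at h; simp at h
  · intro c d d' _ _ h; rw [Nat.zero_testBit] at h; simp at h

theorem col_bit {x : Nat} (h : COL.testBit x = true) : x % 32 = 0 := by
  have h1 : ∀ x, x < 1024 → COL.testBit x = true → x % 32 = 0 := by decide +kernel
  by_cases h2 : x < 1024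
  · exact h1 x h2 h
  · have h3 : Nat.shiftRight COL (nat_lit 1024) = 0 := by decide +kernel
    have h4 : (Nat.shiftRight COL (nat_lit 1024)).testBit (x - 1024) = true := by
      rw [shr_bit]
      have h5 : 1024 + (x - 1024) = x := by omega
      show COL.testBit (1024 + (x - 1024)) = true
      rw [h5]; exact h
    rw [h3, Nat.zero_testBit] at h4
    simp at h4

/-- the vertex set, the spread of the set, its neighbours and the spread of its neighbours -/
structure MInv (A N S R W : Nat) : Prop where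
  s : ∀ x, S.testBit x = true ↔ (x % 32 = 0 ∧ N.testBit (x / 32) = true)
  r : ∀ x, R.testBit x = true → x < 32 ∧ ∃ i, N.testBit i = true ∧ A.testBit (32 * i + x) = true
  w : ∀ x, W.testBit x = true → x % 32 = 0 ∧ ∃ i, N.testBit i = true ∧ A.testBit (x + i) = true

theorem minv_zero (A : Nat) : MInv A 0 0 0 0 := by
  refine ⟨?_, ?_, ?_⟩ <;> intro x <;> simp [Nat.zero_testBit]

theorem spread_add {N S : Nat} (i : Nat)
    (h : ∀ x, S.testBit x = true ↔ (x % 32 = 0 ∧ N.testBit (x / 32) = true)) (x : Nat) :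
    (Nat.lor S (Nat.shiftLeft (nat_lit 1) (32 * i))).testBit x = true ↔
      (x % 32 = 0 ∧ (Nat.lor N (Nat.shiftLeft (nat_lit 1) i)).testBit (x / 32) = true) := by
  rw [lor_bit, lor_bit, one_bit, one_bit, Bool.or_eq_true, Bool.or_eq_true, decide_eq_true_eq,
    decide_eq_true_eq, h]
  constructor
  · rintro (⟨a1, a2⟩ | a1)
    · exact ⟨a1, Or.inl a2⟩
    · exact ⟨by omega, Or.inr (by omega)⟩
  · rintro ⟨a1, a2 | a2⟩
    · exact Or.inl ⟨a1, a2⟩
    · exact Or.inr (by omega)

theorem mk_spec (A : Nat) : ∀ (f s N S R W : Nat)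
    (K : Nat → Nat → Nat → Nat → Nat → Option (List Nat)) (out : List Nat), MInv A N S R W →
    mk A f s N S R W K = some out →
    ∃ s' N' S' R' W', MInv A N' S' R' W' ∧ K s' N' S' R' W' = some out := by
  intro f
  induction f with
  | zero => intro s N S R W K out _ h; exact absurd h (by simp [mk])
  | succ f ih =>
    intro s N S R W K out hI h
    obtain ⟨d, hd⟩ : ∃ d, d = Nat.mod s (nat_lit 32) := ⟨_, rfl⟩
    have h0 : @Bool.rec (fun _ => Option (List Nat))
        (mk A f (Nat.div s (nat_lit 32))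
          (Nat.lor N (Nat.shiftLeft (nat_lit 1) d))
          (Nat.lor S (Nat.shiftLeft (nat_lit 1) (Nat.mul (nat_lit 32) d)))
          (Nat.lor R (Nat.mod (Nat.shiftRight A (Nat.mul (nat_lit 32) d)) (nat_lit 4294967296)))
          (Nat.lor W (Nat.land (Nat.shiftRight A d) COL)) K)
        (K (Nat.div s (nat_lit 32)) N S R W)
        (Nat.beq d (nat_lit 31)) = some out := by rw [hd]; exact h
    rcases brS h0 with ⟨-, h1⟩ | ⟨-, h1⟩
    · exact ⟨_, _, _, _, _, hI, h1⟩
    · have hmul : ∀ a, Nat.mul (nat_lit 32) a = 32 * a := fun _ => rfl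
      rw [hmul] at h1
      refine ih _ _ _ _ _ K out ⟨spread_add d hI.s, ?_, ?_⟩ h1
      · intro x hx
        rw [lor_bit, mod32_bit, shr_bit, Bool.or_eq_true, Bool.and_eq_true, decide_eq_true_eq] at hx
        rcases hx with hx | ⟨hx, hx'⟩
        · obtain ⟨a1, i, a2, a3⟩ := hI.r x hx
          exact ⟨a1, i, by rw [lor_bit, a2]; rfl, a3⟩
        · exact ⟨hx, d, by rw [lor_bit, one_bit]; simp, hx'⟩
      · intro x hx
        rw [lor_bit, land_bit, shr_bit, Bool.or_eq_true, Bool.and_eq_true] at hx
        rcases hx with hx | ⟨hx, hx'⟩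
        · obtain ⟨a1, i, a2, a3⟩ := hI.w x hx
          exact ⟨a1, i, by rw [lor_bit, a2]; rfl, a3⟩
        · exact ⟨col_bit hx', d, by rw [lor_bit, one_bit]; simp, by rwa [add_comm] at hx⟩

/-- a matrix of a graph on `0, ..., m - 1` -/
def Val (m A : Nat) : Prop :=
  ∀ i j, j < 32 → A.testBit (32 * i + j) = true →
    i < m ∧ j < m ∧ i ≠ j ∧ A.testBit (32 * j + i) = true

/-- a matrix of pairs at distance at most two -/
def BV (m A B : Nat) : Prop :=
  ∀ i j, j < 32 → B.testBit (32 * i + j) = true →
    i < m ∧ j < m ∧ (i = j ∨ A.testBit (32 * i + j) = true ∨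
      ∃ k, k < m ∧ A.testBit (32 * i + k) = true ∧ A.testBit (32 * k + j) = true)

theorem ext_bit {A m N S : Nat} (hm : m < 32) (hN : ∀ i, N.testBit i = true → i < m)
    (hS : ∀ x, S.testBit x = true ↔ (x % 32 = 0 ∧ N.testBit (x / 32) = true)) {i j : Nat}
    (hj : j < 32) : (ext A m N S).testBit (32 * i + j) = true ↔
      (A.testBit (32 * i + j) = true ∨ (i = m ∧ N.testBit j = true) ∨
        (j = m ∧ N.testBit i = true)) := by
  have hmul : Nat.mul (nat_lit 32) m = 32 * m := rfl
  unfold ext
  rw [lor_bit, lor_bit, shl_bit, shl_bit, Bool.or_eq_true, Bool.or_eq_true, Bool.and_eq_true,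
    Bool.and_eq_true, decide_eq_true_eq, decide_eq_true_eq, hS, hmul]
  constructor
  · rintro ((h | ⟨h1, h2⟩) | ⟨h1, h2, h3⟩)
    · exact Or.inl h
    · have h4 := hN _ h2
      have h5 : i = m := by omega
      subst h5
      have h6 : 32 * i + j - 32 * i = j := by omega
      rw [h6] at h2
      exact Or.inr (Or.inl ⟨rfl, h2⟩)
    · have h5 : j = m := by omega
      subst h5
      have h6 : (32 * i + j - j) / 32 = i := by omega
      rw [h6] at h3
      exact Or.inr (Or.inr ⟨rfl, h3⟩)
  · rintro (h | ⟨rfl, h⟩ | ⟨rfl, h⟩)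
    · exact Or.inl (Or.inl h)
    · refine Or.inl (Or.inr ⟨by omega, ?_⟩)
      have h6 : 32 * i + j - 32 * i = j := by omega
      rwa [h6]
    · refine Or.inr ⟨by omega, by omega, ?_⟩
      have h6 : (32 * i + j - j) / 32 = i := by omega
      rwa [h6]

theorem val_ext {A m N S : Nat} (hm : m < 32) (hN : ∀ i, N.testBit i = true → i < m)
    (hS : ∀ x, S.testBit x = true ↔ (x % 32 = 0 ∧ N.testBit (x / 32) = true))
    (hA : Val m A) : Val (m + 1) (ext A m N S) := by
  intro i j hj h
  rw [ext_bit hm hN hS hj] at h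
  rcases h with h | ⟨rfl, h⟩ | ⟨rfl, h⟩
  · obtain ⟨a1, a2, a3, a4⟩ := hA i j hj h
    exact ⟨by omega, by omega, a3, (ext_bit hm hN hS (by omega)).2 (Or.inl a4)⟩
  · have := hN j h
    exact ⟨by omega, by omega, by omega, (ext_bit hm hN hS (by omega)).2 (Or.inr (Or.inr ⟨rfl, h⟩))⟩
  · have := hN i h
    exact ⟨by omega, by omega, by omega, (ext_bit hm hN hS (by omega)).2 (Or.inr (Or.inl ⟨rfl, h⟩))⟩

theorem mul_bit : ∀ (n N Q x : Nat), x / 32 = n → N < 2 ^ 32 →
    (∀ y, Q.testBit y = true → y % 32 = 0) → (N * Q).testBit x = true →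
    N.testBit (x % 32) = true ∧ Q.testBit (32 * (x / 32)) = true := by
  intro n
  induction n with
  | zero =>
    intro N Q x hx hN hQ h
    have hx' : x < 32 := by omega
    have hq : Q % 2 ^ 32 = 0 ∨ Q % 2 ^ 32 = 1 := by
      by_cases h1 : Q.testBit 0 = true
      · right
        refine Nat.eq_of_testBit_eq fun i => ?_
        rw [Nat.testBit_mod_two_pow]
        by_cases h2 : i = 0
        · subst h2; simp [h1]
        · have h3 : (1 : Nat).testBit i = false := by
            rw [Nat.testBit_one_eq_true_iff_self_eq_zero.not.2 h2 |> Bool.eq_false_iff.2]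
          rw [h3]
          by_cases h4 : i < 32
          · have : Q.testBit i = false := by
              rw [← Bool.not_eq_true]
              intro h5
              have := hQ i h5
              omega
            simp [this]
          · simp [h4]
      · left
        refine Nat.eq_of_testBit_eq fun i => ?_
        rw [Nat.testBit_mod_two_pow, Nat.zero_testBit]
        by_cases h4 : i < 32
        · have : Q.testBit i = false := by
            rw [← Bool.not_eq_true]
            intro h5
            have := hQ i h5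
            have h6 : i = 0 := by omega
            subst h6
            exact h1 h5
          simp [this]
        · simp [h4]
    have hdec : N * Q = 2 ^ 32 * (N * (Q / 2 ^ 32)) + N * (Q % 2 ^ 32) := by
      conv_lhs => rw [← Nat.div_add_mod Q (2 ^ 32)]
      ring
    have hlt : N * (Q % 2 ^ 32) < 2 ^ 32 := by
      rcases hq with h1 | h1 <;> rw [h1] <;> omega
    rw [hdec, Nat.testBit_two_pow_mul_add _ hlt, if_pos hx'] at h
    have hxm : x % 32 = x := Nat.mod_eq_of_lt hx'
    rcases hq with h1 | h1
    · rw [h1, Nat.mul_zero, Nat.zero_testBit] at h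
      simp at h
    · rw [h1, Nat.mul_one] at h
      refine ⟨by rw [hxm]; exact h, ?_⟩
      rw [hx]
      have h2 : (Q % 2 ^ 32).testBit 0 = true := by rw [h1]; rfl
      rw [Nat.testBit_mod_two_pow, Bool.and_eq_true] at h2
      exact h2.2
  | succ n ih =>
    intro N Q x hx hN hQ h
    have hx' : ¬ x < 32 := by omega
    have hdec : N * Q = 2 ^ 32 * (N * (Q / 2 ^ 32)) + N * (Q % 2 ^ 32) := by
      conv_lhs => rw [← Nat.div_add_mod Q (2 ^ 32)]
      ring
    have hle : Q % 2 ^ 32 ≤ 1 := by
      by_contra hcon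
      push Not at hcon
      have h1 : ∃ i, i ≠ 0 ∧ (Q % 2 ^ 32).testBit i = true := by
        by_contra h2
        push Not at h2
        have h3 : Q % 2 ^ 32 / 2 = 0 := by
          refine Nat.eq_of_testBit_eq fun i => ?_
          rw [Nat.zero_testBit, ← Nat.testBit_succ]
          simpa using h2 (i + 1) (by omega)
        omega
      obtain ⟨i, h2, h3⟩ := h1
      rw [Nat.testBit_mod_two_pow, Bool.and_eq_true, decide_eq_true_eq] at h3
      have := hQ i h3.2
      omega
    have hlt : N * (Q % 2 ^ 32) < 2 ^ 32 := by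
      calc N * (Q % 2 ^ 32) ≤ N * 1 := Nat.mul_le_mul_left _ hle
        _ < 2 ^ 32 := by omega
    rw [hdec, Nat.testBit_two_pow_mul_add _ hlt, if_neg hx'] at h
    obtain ⟨h1, h2⟩ := ih N (Q / 2 ^ 32) (x - 32) (by omega) hN (by
      intro y hy
      rw [Nat.testBit_div_two_pow] at hy
      have := hQ _ hy
      omega) h
    rw [Nat.testBit_div_two_pow] at h2
    have e1 : (x - 32) % 32 = x % 32 := by omega
    have e2 : 32 * ((x - 32) / 32) + 32 = 32 * (x / 32) := by omega
    rw [e1] at h1
    rw [e2] at h2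
    exact ⟨h1, h2⟩

theorem bv_ext {A B m N S R W : Nat} (hm : m < 32) (hN : ∀ i, N.testBit i = true → i < m)
    (hI : MInv A N S R W) (hA : Val m A) (hB : BV m A B) :
    BV (m + 1) (ext A m N S) (extB B m N S (Nat.lor N R) (Nat.lor S W)) := by
  have hS := hI.s
  have hmul : Nat.mul (nat_lit 32) m = 32 * m := rfl
  have hNlt : N < 2 ^ 32 := by
    apply Nat.lt_pow_two_of_testBit
    intro i hi
    rw [← Bool.not_eq_true]
    intro h
    have := hN i h
    omega
  intro i j hj h
  have h0 : ((B.testBit (32 * i + j) = true ∨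
      (32 * m ≤ 32 * i + j ∧ (Nat.lor N R).testBit (32 * i + j - 32 * m) = true)) ∨
      (m ≤ 32 * i + j ∧ (Nat.lor S W).testBit (32 * i + j - m) = true)) ∨
      (N * S).testBit (32 * i + j) = true := by
    unfold extB at h
    rw [lor_bit, lor_bit, lor_bit, shl_bit, shl_bit, Bool.or_eq_true, Bool.or_eq_true,
      Bool.or_eq_true, Bool.and_eq_true, Bool.and_eq_true, decide_eq_true_eq, decide_eq_true_eq,
      hmul] at h
    exact h
  rcases h0 with ((h1 | ⟨h1, h2⟩) | ⟨h1, h2⟩) | h1
  · obtain ⟨a1, a2, a3⟩ := hB i j hj h1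
    refine ⟨by omega, by omega, ?_⟩
    rcases a3 with a3 | a3 | ⟨k, a3, a4, a5⟩
    · exact Or.inl a3
    · exact Or.inr (Or.inl ((ext_bit hm hN hS hj).2 (Or.inl a3)))
    · exact Or.inr (Or.inr ⟨k, by omega, (ext_bit hm hN hS (by omega)).2 (Or.inl a4),
        (ext_bit hm hN hS hj).2 (Or.inl a5)⟩)
  · rw [lor_bit, Bool.or_eq_true] at h2
    have hlt : 32 * i + j - 32 * m < 32 := by
      rcases h2 with h2 | h2
      · have := hN _ h2; omega
      · exact (hI.r _ h2).1
    have h5 : i = m := by omega
    subst h5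
    have h6 : 32 * i + j - 32 * i = j := by omega
    rw [h6] at h2
    rcases h2 with h2 | h2
    · have := hN _ h2
      exact ⟨by omega, by omega, Or.inr (Or.inl ((ext_bit hm hN hS hj).2
        (Or.inr (Or.inl ⟨rfl, h2⟩))))⟩
    · obtain ⟨-, k, h7, h8⟩ := hI.r _ h2
      obtain ⟨a1, a2, a3, a4⟩ := hA k j hj h8
      exact ⟨by omega, by omega, Or.inr (Or.inr ⟨k, by omega,
        (ext_bit hm hN hS (by omega)).2 (Or.inr (Or.inl ⟨rfl, h7⟩)),
        (ext_bit hm hN hS hj).2 (Or.inl h8)⟩)⟩
  · rw [lor_bit, Bool.or_eq_true] at h2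
    have h3 : (32 * i + j - m) % 32 = 0 := by
      rcases h2 with h2 | h2
      · exact ((hS _).1 h2).1
      · exact (hI.w _ h2).1
    have h5 : j = m := by omega
    subst h5
    have h6 : 32 * i + j - j = 32 * i := by omega
    rw [h6] at h2
    rcases h2 with h2 | h2
    · have h7 := ((hS _).1 h2).2
      have h8 : 32 * i / 32 = i := by omega
      rw [h8] at h7
      have := hN _ h7
      exact ⟨by omega, by omega, Or.inr (Or.inl ((ext_bit hm hN hS hj).2
        (Or.inr (Or.inr ⟨rfl, h7⟩))))⟩
    · obtain ⟨-, k, h7, h8⟩ := hI.w _ h2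
      have hk := hN k h7
      obtain ⟨a1, a2, a3, a4⟩ := hA i k (by omega) h8
      exact ⟨by omega, by omega, Or.inr (Or.inr ⟨k, by omega,
        (ext_bit hm hN hS (by omega)).2 (Or.inl h8),
        (ext_bit hm hN hS hj).2 (Or.inr (Or.inr ⟨rfl, h7⟩))⟩)⟩
  · obtain ⟨h2, h3⟩ := mul_bit _ N S (32 * i + j) rfl hNlt (fun y hy => ((hS y).1 hy).1) h1
    have e1 : (32 * i + j) % 32 = j := by omega
    have e2 : (32 * i + j) / 32 = i := by omega
    rw [e1] at h2
    rw [e2, hS] at h3
    have e3 : 32 * i / 32 = i := by omega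
    rw [e3] at h3
    have hi := hN _ h3.2
    have hj' := hN _ h2
    exact ⟨by omega, by omega, Or.inr (Or.inr ⟨m, by omega,
      (ext_bit hm hN hS (by omega)).2 (Or.inr (Or.inr ⟨rfl, h3.2⟩)),
      (ext_bit hm hN hS hj).2 (Or.inr (Or.inl ⟨rfl, h2⟩))⟩)⟩

end Pool.Agent.W5h9.LF
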