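import Pool.Agent.W5h9.LF.Pm

set_option autoImplicit false
set_option linter.unusedVariables false

/-!
# Soundness of the decision trees
-/

namespace Pool.Agent.W5h9.LF

open Relation
open Pool.Agent.R140.PK (dg dg_zero dg_succ lor_bit land_bit shl_bit bit_bit ne_zero_testBit)

section
variable {V : Type} (R : V → V → Prop)

/-- the state is an induced subgraph, by the map `φ` -/
structure Em (m A : Nat) (φ : Nat → V) : Prop where
  adj : ∀ i j, i < m → j < m → (R (φ i) (φ j) ↔ A.testBit (32 * i + j) = true)
  inj : ∀ i j, i < m → j < m → φ i = φ j → i = j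
  nbr : ∀ i, i < m → ∃ b, R (φ i) b

/-- the state is not an induced subgraph -/
def Bad (m A : Nat) : Prop := ∀ φ : Nat → V, ¬ Em R m A φ

/-- an entry of the context -/
def Good (g : Nat × Nat) : Prop := 0 < g.1 ∧ g.1 < 32 ∧ Val g.1 g.2 ∧ Bad R g.1 g.2

/-- graphs without circuits of length at most four, without vertices of degree one or two, without
the induced linear forest, without Petersen minors, which are 2-connected and not small -/
structure Hyp (L : List Bool) : Prop where
  symm : ∀ a b, R a b → R b a
  irr : ∀ a, ¬ R a a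
  tri : ∀ a b c, R a b → R b c → R c a → False
  four : ∀ a b c d, a ≠ c → b ≠ d → R a b → R b c → R c d → R d a → False
  deg : ∀ a b, R a b → ∀ l : List V, l.length ≤ 2 → ∃ w, R a w ∧ w ∉ l
  forest : ∀ p : Fin L.length → V, Function.Injective p → (∀ i, ∃ b, R (p i) b) →
    ¬ ∀ i j : Fin L.length, i < j →
      (R (p i) (p j) ↔ (i.val + 1 = j.val ∧ L[i.val]? = some true))
  pet : ∀ B : Nat → Set V, (∀ c c', c ≠ c' → Disjoint (B c) (B c')) →
    (∀ c, ∀ x ∈ B c, ∃ b, R x b) →
    (∀ c, ∀ x ∈ B c, ∀ y ∈ B c, ReflTransGen (fun u v => u ∈ B c ∧ v ∈ B c ∧ R u v) x y) →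
    ¬ ∀ e ∈ PE, ∃ x ∈ B e.1, ∃ y ∈ B e.2, R x y
  cl : ∀ (m A : Nat) (φ : Nat → V), 2 ≤ m → Em R m A φ → ∀ x, x < m →
    (∀ i, i < m → i ≠ x → ∀ y, R (φ i) y → ∃ j, j < m ∧ φ j = y) →
    ¬ (m ≤ 17 ∨ odds A m m ≤ 17)

variable {R}

theorem upd_lt {m : Nat} {φ : Nat → V} {w : V} {i : Nat} (hi : i < m) :
    Function.update φ m w i = φ i := Function.update_of_ne (by omega) _ _

theorem upd_inj {m A : Nat} {φ : Nat → V} (he : Em R m A φ) {w : V}
    (hw : ∀ i, i < m → φ i ≠ w) {i j : Nat} (hi : i ≤ m) (hj : j ≤ m)
    (hij : Function.update φ m w i = Function.update φ m w j) : i = j := by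
  rcases Nat.lt_or_ge i m with hi' | hi' <;> rcases Nat.lt_or_ge j m with hj' | hj'
  · rw [upd_lt hi', upd_lt hj'] at hij
    exact he.inj i j hi' hj' hij
  · have : j = m := by omega
    subst this
    rw [upd_lt hi', Function.update_self] at hij
    exact absurd hij (hw i hi')
  · have : i = m := by omega
    subst this
    rw [upd_lt hj', Function.update_self] at hij
    exact absurd hij.symm (hw j hj')
  · omega

theorem upd_nbr {m A : Nat} {φ : Nat → V} (he : Em R m A φ) {w : V} (hb : ∃ b, R w b) {i : Nat}
    (hi : i ≤ m) : ∃ b, R (Function.update φ m w i) b := by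
  rcases Nat.lt_or_ge i m with hi' | hi'
  · rw [upd_lt hi']; exact he.nbr i hi'
  · have : i = m := by omega
    subst this
    rw [Function.update_self]; exact hb

theorem part_adj {L : List Bool} (hR : Hyp R L) {m A N S M : Nat} {φ : Nat → V} {w : V}
    (hm : m < 32) (hA : Val m A) (he : Em R m A φ)
    (hN : ∀ i, N.testBit i = true → i < m)
    (hS : ∀ x, S.testBit x = true ↔ (x % 32 = 0 ∧ N.testBit (x / 32) = true))
    (hMN : ∀ i, i < m → M.testBit i = true → (N.testBit i = true ↔ R w (φ i)))
    {i j : Nat} (hi : i ≤ m) (hj : j ≤ m) (hMi : M.testBit i = true) (hMj : M.testBit j = true) :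
    R (Function.update φ m w i) (Function.update φ m w j) ↔
      (ext A m N S).testBit (32 * i + j) = true := by
  rw [ext_bit hm hN hS (by omega)]
  rcases Nat.lt_or_ge i m with hi' | hi' <;> rcases Nat.lt_or_ge j m with hj' | hj'
  · rw [upd_lt hi', upd_lt hj', he.adj i j hi' hj']
    constructor
    · exact Or.inl
    · rintro (h | ⟨h, _⟩ | ⟨h, _⟩)
      · exact h
      · omega
      · omega
  · have : j = m := by omega
    subst this
    rw [upd_lt hi', Function.update_self]
    constructor
    · intro h
      exact Or.inr (Or.inr ⟨rfl, (hMN i hi' hMi).2 (hR.symm _ _ h)⟩)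
    · rintro (h | ⟨h, _⟩ | ⟨_, h⟩)
      · have := (hA i j (by omega) h).2.1; omega
      · omega
      · exact hR.symm _ _ ((hMN i hi' hMi).1 h)
  · have : i = m := by omega
    subst this
    rw [upd_lt hj', Function.update_self]
    constructor
    · intro h
      exact Or.inr (Or.inl ⟨rfl, (hMN j hj' hMj).2 h⟩)
    · rintro (h | ⟨_, h⟩ | ⟨h, _⟩)
      · have := (hA i j (by omega) h).1; omega
      · exact (hMN j hj' hMj).1 h
      · omega
  · have h1 : i = m := by omega
    have h2 : j = m := by omega
    subst h1
    subst h2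
    rw [Function.update_self]
    constructor
    · intro h; exact absurd h (hR.irr _)
    · rintro (h | ⟨_, h⟩ | ⟨_, h⟩)
      · have := (hA _ _ (by omega) h).1; omega
      · have := hN _ h; omega
      · have := hN _ h; omega

theorem pos_adj {L : List Bool} (hR : Hyp R L) {m A N S : Nat} {φ : Nat → V} {w : V}
    (hm : m < 32) (hA : Val m A) (he : Em R m A φ)
    (hN : ∀ i, N.testBit i = true → i < m)
    (hS : ∀ x, S.testBit x = true ↔ (x % 32 = 0 ∧ N.testBit (x / 32) = true))
    (hNR : ∀ i, N.testBit i = true → R w (φ i))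
    {i j : Nat} (hj : j < 32) (h : (ext A m N S).testBit (32 * i + j) = true) :
    i ≤ m ∧ j ≤ m ∧ R (Function.update φ m w i) (Function.update φ m w j) := by
  rw [ext_bit hm hN hS hj] at h
  rcases h with h | ⟨rfl, h⟩ | ⟨rfl, h⟩
  · obtain ⟨a1, a2, _, _⟩ := hA i j hj h
    refine ⟨by omega, by omega, ?_⟩
    rw [upd_lt a1, upd_lt a2, he.adj i j a1 a2]
    exact h
  · have := hN j h
    refine ⟨by omega, by omega, ?_⟩
    rw [upd_lt this, Function.update_self]
    exact hNR j h
  · have := hN i h
    refine ⟨by omega, by omega, ?_⟩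
    rw [upd_lt this, Function.update_self]
    exact hR.symm _ _ (hNR i h)

section
variable (L : List Bool) (bits : Nat) (Γ : List (Nat × Nat)) (z A B m f N S M s : Nat)

theorem run_t0 (h : Nat.mod s (nat_lit 8) = 0) : run L bits Γ z A B m (f + 1) N S M s =
    @Bool.rec (fun _ => Option Nat) none
          (some (Nat.shiftRight s (Nat.add bits (nat_lit 3))))
          (isJ (ext A m N S) M L
            (Nat.mod (Nat.shiftRight s (nat_lit 3)) (Nat.shiftLeft (nat_lit 1) bits))
            (nat_lit 0) (nat_lit 0)) := by
  show @Nat.rec (fun _ => Option Nat) _ _ (Nat.mod s (nat_lit 8)) = _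
  rw [h] <;> rfl

theorem run_t1 (h : Nat.mod s (nat_lit 8) = 1) : run L bits Γ z A B m (f + 1) N S M s =
    @Bool.rec (fun _ => Option Nat) none
      (@Option.rec Nat (fun _ => Option Nat) none
        (fun s' => run L bits Γ z A B m f
          (Nat.lor N
            (Nat.shiftLeft (nat_lit 1) (Nat.mod (Nat.shiftRight s (nat_lit 3)) (nat_lit 32))))
          (Nat.lor S (Nat.shiftLeft (nat_lit 1)
            (Nat.mul (nat_lit 32) (Nat.mod (Nat.shiftRight s (nat_lit 3)) (nat_lit 32)))))
          (Nat.lor (Nat.lor M
            (Nat.shiftLeft (nat_lit 1) (Nat.mod (Nat.shiftRight s (nat_lit 3)) (nat_lit 32))))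
            (Nat.mod (Nat.shiftRight B
              (Nat.mul (nat_lit 32) (Nat.mod (Nat.shiftRight s (nat_lit 3)) (nat_lit 32))))
              (Nat.shiftLeft (nat_lit 1) m)))
          s')
        (run L bits Γ z A B m f N S (Nat.lor M
          (Nat.shiftLeft (nat_lit 1) (Nat.mod (Nat.shiftRight s (nat_lit 3)) (nat_lit 32))))
          (Nat.shiftRight s (nat_lit 8))))
      (Nat.ble (Nat.succ (Nat.mod (Nat.shiftRight s (nat_lit 3)) (nat_lit 32))) m) := by
  show @Nat.rec (fun _ => Option Nat) _ _ (Nat.mod s (nat_lit 8)) = _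
  rw [h] <;> rfl

theorem run_t2 (h : Nat.mod s (nat_lit 8) = 2) : run L bits Γ z A B m (f + 1) N S M s =
    getk Γ (Nat.mod (Nat.shiftRight s (nat_lit 3)) (nat_lit 64)) (fun k X =>
              pat (ext A m N S) M X k
                (Nat.mod (Nat.shiftRight s (nat_lit 9))
                  (Nat.shiftLeft (nat_lit 1) (Nat.mul (nat_lit 5) k)))
                (nat_lit 400) (nat_lit 0)
                (Nat.shiftRight s (Nat.add (nat_lit 9) (Nat.mul (nat_lit 5) k)))
                (Nat.mod (Nat.shiftRight s (nat_lit 9))
                  (Nat.shiftLeft (nat_lit 1) (Nat.mul (nat_lit 5) k)))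
                (nat_lit 0) (nat_lit 0) (nat_lit 0)) := by
  show @Nat.rec (fun _ => Option Nat) _ _ (Nat.mod s (nat_lit 8)) = _
  rw [h] <;> rfl

theorem run_t3 (h : Nat.mod s (nat_lit 8) = 3) : run L bits Γ z A B m (f + 1) N S M s =
    @Bool.rec (fun _ => Option Nat) none
                (@Bool.rec (fun _ => Option Nat)
                  (@Bool.rec (fun _ => Option Nat)
                    (getk Γ (Nat.mod (Nat.shiftRight s (nat_lit 3)) (nat_lit 64)) (fun k X =>
                      @Bool.rec (fun _ => Option Nat) none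
                        (@Bool.rec (fun _ => Option Nat) none
                          (some (Nat.shiftRight s (nat_lit 9)))
                          (Nat.beq X (ext A m N S)))
                        (Nat.beq k (Nat.succ m))))
                    (some (Nat.shiftRight s (nat_lit 9)))
                    (Nat.beq N z))
                  (some (Nat.shiftRight s (nat_lit 9)))
                  (Nat.beq N (nat_lit 0)))
                (Nat.beq (Nat.succ M) (Nat.shiftLeft (nat_lit 1) (Nat.succ m))) := by
  show @Nat.rec (fun _ => Option Nat) _ _ (Nat.mod s (nat_lit 8)) = _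
  rw [h] <;> rfl

theorem run_t4 (h : Nat.mod s (nat_lit 8) = 4) : run L bits Γ z A B m (f + 1) N S M s =
    pm (ext A m N S) m (nat_lit 40) (Nat.shiftRight s (nat_lit 3)) (nat_lit 0)
                  (nat_lit 0) (nat_lit 0) := by
  show @Nat.rec (fun _ => Option Nat) _ _ (Nat.mod s (nat_lit 8)) = _
  rw [h] <;> rfl

theorem run_t5 (t : Nat) (h : Nat.mod s (nat_lit 8) = t + 5) :
    run L bits Γ z A B m (f + 1) N S M s = none := by
  show @Nat.rec (fun _ => Option Nat) _ _ (Nat.mod s (nat_lit 8)) = _
  rw [h] <;> rfl

end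

/-- two vertices at distance at most two have no common new neighbour -/
theorem not_both {L : List Bool} (hR : Hyp R L) {m A : Nat} {φ : Nat → V} (he : Em R m A φ) {w : V}
    (hw : ∀ i, i < m → φ i ≠ w) {i j : Nat} (hi : i < m) (hj : j < m) (hij : i ≠ j)
    (h : A.testBit (32 * i + j) = true ∨
      ∃ k, k < m ∧ A.testBit (32 * i + k) = true ∧ A.testBit (32 * k + j) = true)
    (hwi : R w (φ i)) : ¬ R w (φ j) := by
  intro hwj
  rcases h with h | ⟨k, hk, h1, h2⟩
  · exact hR.tri w (φ i) (φ j) hwi ((he.adj i j hi hj).2 h) (hR.symm _ _ hwj)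
  · exact hR.four w (φ i) (φ k) (φ j) (fun h => hw k hk h.symm)
      (fun h => hij (he.inj i j hi hj h)) hwi ((he.adj i k hi hk).2 h1)
      ((he.adj k j hk hj).2 h2) (hR.symm _ _ hwj)

theorem run_sound {L : List Bool} (hR : Hyp R L) {bits z A B m T : Nat} {Γ : List (Nat × Nat)}
    {φ : Nat → V} {w : V} (hm : m < 31) (hA : Val m A) (hB : BV m A B) (he : Em R m A φ)
    (hw : ∀ i, i < m → φ i ≠ w) (hb : ∃ b, R w b)
    (hT : ∀ i, T.testBit i = true ↔ (i < m ∧ R w (φ i))) (hT0 : T ≠ 0) (hTz : T ≠ z)
    (hΓ : ∀ g ∈ Γ, Good R g) : ∀ (f N S M s out : Nat),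
    (∀ i, M.testBit i = true → i ≤ m) → M.testBit m = true →
    (∀ i, i < m → M.testBit i = true → (N.testBit i = true ↔ T.testBit i = true)) →
    (∀ i, N.testBit i = true → i < m ∧ M.testBit i = true) →
    (∀ x, S.testBit x = true ↔ (x % 32 = 0 ∧ N.testBit (x / 32) = true)) →
    run L bits Γ z A B m f N S M s = some out → False := by
  intro f
  induction f with
  | zero => intro N S M s out _ _ _ _ _ h; exact absurd h (by simp [run])
  | succ f ih =>
    intro N S M s out hM hMm hNT hN hS h
    have hNm : ∀ i, N.testBit i = true → i < m := fun i hi => (hN i hi).1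
    have hNR : ∀ i, N.testBit i = true → R w (φ i) := fun i hi =>
      ((hT i).1 ((hNT i (hN i hi).1 (hN i hi).2).1 hi)).2
    have hMN : ∀ i, i < m → M.testBit i = true → (N.testBit i = true ↔ R w (φ i)) := by
      intro i hi hMi
      rw [hNT i hi hMi, hT]
      exact ⟨fun h => h.2, fun h => ⟨hi, h⟩⟩
    have hadj : ∀ i j, M.testBit i = true → M.testBit j = true →
        (R (Function.update φ m w i) (Function.update φ m w j) ↔
          (ext A m N S).testBit (32 * i + j) = true) := fun i j hi hj =>
      part_adj hR (by omega) hA he hNm hS hMN (hM i hi) (hM j hj) hi hj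
    rcases hq : Nat.mod s (nat_lit 8) with _ | _ | _ | _ | _ | t
    · -- the forest
      rw [run_t0 L bits Γ z A B m f N S M s hq] at h
      obtain ⟨h1, -⟩ := brN h
      obtain ⟨-, r2, -, r4⟩ := isJ_spec (ext A m N S) M L _ _ _ (fun _ => False) (fun _ => False)
        (fun z => by simp [Nat.zero_testBit]) (fun z => by simp [Nat.zero_testBit]) h1
      refine hR.forest (fun i => Function.update φ m w (dg
        (Nat.mod (Nat.shiftRight s (nat_lit 3)) (Nat.shiftLeft (nat_lit 1) bits)) i.val)) ?_ ?_ ?_
      · intro i j hij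
        have h2 := upd_inj he hw (hM _ (r2 i.val i.2)) (hM _ (r2 j.val j.2)) hij
        rcases lt_trichotomy i j with h3 | h3 | h3
        · exact absurd h2 (r4 i.val j.val h3 j.2).1
        · exact h3
        · exact absurd h2.symm (r4 j.val i.val h3 i.2).1
      · intro i
        exact upd_nbr he hb (hM _ (r2 i.val i.2))
      · intro i j hij
        rw [← (r4 i.val j.val hij j.2).2, ← hadj _ _ (r2 j.val j.2) (r2 i.val i.2)]
        exact ⟨hR.symm _ _, hR.symm _ _⟩
    · -- a decision
      rw [run_t1 L bits Γ z A B m f N S M s hq] at h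
      obtain ⟨i, hi⟩ : ∃ i, i = Nat.mod (Nat.shiftRight s (nat_lit 3)) (nat_lit 32) := ⟨_, rfl⟩
      rw [← hi] at h
      obtain ⟨h1, h2⟩ := brN h
      have him : i < m := Nat.le_of_ble_eq_true h1
      have hM' : ∀ x, (Nat.lor M (Nat.shiftLeft (nat_lit 1) i)).testBit x = true ↔
          (M.testBit x = true ∨ i = x) := by
        intro x
        rw [lor_bit, one_bit, Bool.or_eq_true, decide_eq_true_eq]
      rcases hr : run L bits Γ z A B m f N S (Nat.lor M (Nat.shiftLeft (nat_lit 1) i))
        (Nat.shiftRight s (nat_lit 8)) with _ | s'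
      · rw [hr] at h2
        exact absurd h2 (by simp)
      · rw [hr] at h2
        by_cases hTi : T.testBit i = true
        · -- yes
          have hmul : ∀ a, Nat.mul (nat_lit 32) a = 32 * a := fun _ => rfl
          rw [hmul] at h2
          have hM'' : ∀ x, (Nat.lor (Nat.lor M (Nat.shiftLeft (nat_lit 1) i))
              (Nat.mod (Nat.shiftRight B (32 * i)) (Nat.shiftLeft (nat_lit 1) m))).testBit x = true ↔
              ((M.testBit x = true ∨ i = x) ∨ (x < m ∧ B.testBit (32 * i + x) = true)) := by
            intro x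
            rw [lor_bit, Bool.or_eq_true, hM', modp_bit, shr_bit, Bool.and_eq_true,
              decide_eq_true_eq]
          refine ih _ _ _ s' out ?_ ?_ ?_ ?_ (fun x => spread_add i hS x) h2
          · intro x hx
            rw [hM''] at hx
            rcases hx with (hx | hx) | hx
            · exact hM x hx
            · omega
            · omega
          · rw [hM'']; exact Or.inl (Or.inl hMm)
          · intro x hx hMx
            rw [lor_bit, one_bit, Bool.or_eq_true, decide_eq_true_eq]
            rw [hM''] at hMx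
            by_cases hix : i = x
            · subst hix; simp [hTi]
            · rcases hMx with (hMx | hMx) | ⟨-, hMx⟩
              · rw [← hNT x hx hMx]
                constructor
                · rintro (h | h)
                  · exact h
                  · exact absurd h hix
                · exact Or.inl
              · exact absurd hMx hix
              · obtain ⟨a1, a2, a3⟩ := hB i x (by omega) hMx
                have h3 := not_both hR he hw him hx hix (a3.resolve_left hix) ((hT i).1 hTi).2
                constructor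
                · rintro (h | h)
                  · exact absurd (hNR x h) h3
                  · exact absurd h hix
                · intro h
                  exact absurd ((hT x).1 h).2 h3
          · intro x hx
            rw [lor_bit, one_bit, Bool.or_eq_true, decide_eq_true_eq] at hx
            rw [hM'']
            rcases hx with hx | hx
            · exact ⟨(hN x hx).1, Or.inl (Or.inl (hN x hx).2)⟩
            · exact ⟨by omega, Or.inl (Or.inr hx)⟩
        · -- no
          refine ih _ _ _ _ s' ?_ ?_ ?_ ?_ hS hr
          · intro x hx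
            rw [hM'] at hx
            rcases hx with hx | hx
            · exact hM x hx
            · omega
          · rw [hM']; exact Or.inl hMm
          · intro x hx hMx
            rw [hM'] at hMx
            rcases hMx with hMx | hMx
            · exact hNT x hx hMx
            · subst hMx
              constructor
              · intro h
                exact (hNT i hx (hN i h).2).1 h
              · intro h; exact absurd h hTi
          · intro x hx
            rw [hM']
            exact ⟨(hN x hx).1, Or.inl (hN x hx).2⟩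
    · -- a bad graph
      rw [run_t2 L bits Γ z A B m f N S M s hq] at h
      obtain ⟨g, hg, h1⟩ := getk_spec Γ _ out _ h
      obtain ⟨g0, g1, g2, g3⟩ := hΓ g hg
      obtain ⟨σ, hσ⟩ : ∃ σ, σ = Nat.mod (Nat.shiftRight s (nat_lit 9))
                  (Nat.shiftLeft (nat_lit 1) (Nat.mul (nat_lit 5) g.1)) := ⟨_, rfl⟩
      have h2 : pat (ext A m N S) M g.2 g.1 σ (nat_lit 400) (nat_lit 0)
                (Nat.shiftRight s (Nat.add (nat_lit 9) (Nat.mul (nat_lit 5) g.1)))
                σ (nat_lit 0) (nat_lit 0) (nat_lit 0) = some out := by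
        rw [hσ]; exact h1
      obtain ⟨r1, r2⟩ := pat_spec (ext A m N S) M g.2 g.1 σ (nat_lit 400) 0 _ σ 0 0 0 out
        (by rw [pow_zero, Nat.div_one]) (fun z => by simp [Nat.zero_testBit])
        (fun z => by simp [Nat.zero_testBit]) (fun j j' h => absurd h (by omega)) g0 h2
      refine g3 (fun i => Function.update φ m w (dg σ i)) ⟨?_, ?_, ?_⟩
      · intro i j hi hj
        rcases lt_trichotomy i j with h3 | h3 | h3
        · have h4 := (r2 i j h3 hj (by omega)).2
          rw [← hadj _ _ (r1 j hj) (r1 i hi)] at h4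
          constructor
          · intro h5
            have h6 := h4.1 (hR.symm _ _ h5)
            exact (g2 j i (by omega) h6).2.2.2
          · intro h5
            exact hR.symm _ _ (h4.2 (g2 i j (by omega) h5).2.2.2)
        · subst h3
          constructor
          · intro h5; exact absurd h5 (hR.irr _)
          · intro h5; exact absurd rfl (g2 i i (by omega) h5).2.2.1
        · rw [← (r2 j i h3 hi (by omega)).2]
          exact hadj _ _ (r1 i hi) (r1 j hj)
      · intro i j hi hj hij
        have h2 := upd_inj he hw (hM _ (r1 i hi)) (hM _ (r1 j hj)) hij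
        rcases lt_trichotomy i j with h3 | h3 | h3
        · exact absurd h2 (r2 i j h3 hj (by omega)).1
        · exact h3
        · exact absurd h2.symm (r2 j i h3 hi (by omega)).1
      · intro i hi
        exact upd_nbr he hb (hM _ (r1 i hi))
    · -- all known
      rw [run_t3 L bits Γ z A B m f N S M s hq] at h
      obtain ⟨h1, h2⟩ := brN h
      have h1' := Nat.eq_of_beq_eq_true h1
      have hall : ∀ i, i ≤ m → M.testBit i = true := by
        intro i hi
        have h3 : M + 1 = 2 ^ (m + 1) := by
          have h4 : Nat.shiftLeft (nat_lit 1) (Nat.succ m) = 2 ^ (m + 1) := by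
            have : Nat.shiftLeft (nat_lit 1) (Nat.succ m) = 1 <<< (m + 1) := rfl
            rw [this, Nat.one_shiftLeft]
          rw [← h4]; exact h1'
        have h5 : M = 2 ^ (m + 1) - 1 := by omega
        rw [h5, Nat.testBit_two_pow_sub_one]
        simpa using by omega
      have hNeqT : N = T := by
        refine Nat.eq_of_testBit_eq fun i => ?_
        rw [Bool.eq_iff_iff]
        rcases Nat.lt_or_ge i m with hi | hi
        · exact hNT i hi (hall i (by omega))
        · constructor
          · intro h; have := hNm i h; omega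
          · intro h; have := ((hT i).1 h).1; omega
      rcases brS h2 with ⟨h3, -⟩ | ⟨h3, h4⟩
      · exact hT0 (hNeqT ▸ Nat.eq_of_beq_eq_true h3)
      rcases brS h4 with ⟨h5, -⟩ | ⟨h5, h6⟩
      · exact hTz (hNeqT ▸ Nat.eq_of_beq_eq_true h5)
      obtain ⟨g, hg, h7⟩ := getk_spec Γ _ out _ h6
      obtain ⟨g0, g1, g2, g3⟩ := hΓ g hg
      obtain ⟨h8, h9⟩ := brN h7
      obtain ⟨h10, -⟩ := brN h9
      have h8' : g.1 = m + 1 := Nat.eq_of_beq_eq_true h8
      have h10' : g.2 = ext A m N S := Nat.eq_of_beq_eq_true h10
      rw [h8', h10'] at g3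
      refine g3 (Function.update φ m w) ⟨?_, ?_, ?_⟩
      · intro i j hi hj
        exact hadj i j (hall i (by omega)) (hall j (by omega))
      · intro i j hi hj hij
        exact upd_inj he hw (by omega) (by omega) hij
      · intro i hi
        exact upd_nbr he hb (by omega)
    · -- a Petersen minor
      rw [run_t4 L bits Γ z A B m f N S M s hq] at h
      obtain ⟨C, c1, c2, c3, c4⟩ := pm_spec (ext A m N S) m _ _ _ _ _ out
        (pinv_zero (ext A m N S) m) h
      have hp : ∀ i j, j < 32 → (ext A m N S).testBit (32 * i + j) = true →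
          i ≤ m ∧ j ≤ m ∧ R (Function.update φ m w i) (Function.update φ m w j) :=
        fun i j hj h => pos_adj hR (by omega) hA he hNm hS hNR hj h
      refine hR.pet (fun c => {v | ∃ d, d < 32 ∧ C.testBit (32 * c + d) = true ∧
        v = Function.update φ m w d}) ?_ ?_ ?_ ?_
      · intro c c' hcc
        rw [Set.disjoint_left]
        rintro v ⟨d, d1, d2, rfl⟩ ⟨d', d3, d4, d5⟩
        have h1 := upd_inj he hw (c1 c d d1 d2) (c1 c' d' d3 d4) d5
        subst h1
        exact hcc (c2 c c' d d1 d2 d4)
      · rintro c v ⟨d, d1, d2, rfl⟩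
        exact upd_nbr he hb (c1 c d d1 d2)
      · rintro c v ⟨d, d1, d2, rfl⟩ v' ⟨d', d3, d4, rfl⟩
        have h1 := c3 c d d' d1 d3 d2 d4
        clear d3 d4
        induction h1 with
        | refl => exact ReflTransGen.refl
        | tail _ h2 ih2 =>
          obtain ⟨e1, e2, e3, e4, e5⟩ := h2
          refine ih2.tail ⟨⟨_, e1, e3, rfl⟩, ⟨_, e2, e4, rfl⟩, ?_⟩
          rcases e5 with e5 | e5
          · exact (hp _ _ e2 e5).2.2
          · exact hR.symm _ _ (hp _ _ e1 e5).2.2
      · intro e hePE
        obtain ⟨d, x, d1, d2, d3, d4, d5⟩ := c4 e hePE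
        exact ⟨_, ⟨d, d1, d3, rfl⟩, _, ⟨x, d2, d4, rfl⟩, (hp _ _ d2 d5).2.2⟩
    · rw [run_t5 L bits Γ z A B m f N S M s t hq] at h
      exact absurd h (by simp)

end

end Pool.Agent.W5h9.LF
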